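import Mathlib

set_option autoImplicit false

/-!
Definitions used in the statements of the results on Type-A and Type-B orders.
-/

namespace Pool.Agent.W_MP_c8d28d_lc

/-- A formula in conjunctive normal form: a list of clauses, each clause a list of literals; the
literal `(i, true)` is the variable `x_i`, the literal `(i, false)` is its negation. -/
abbrev CNF : Type := List (List (ℕ × Bool))

/-- The formula has a satisfying assignment. -/
def Satisfiable (φ : CNF) : Prop :=
  ∃ τ : ℕ → Bool, ∀ c ∈ φ, ∃ l ∈ c, τ l.1 = l.2

/-- The alphabet used to write down formulas. -/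
inductive Tok
  | one
  | pos
  | neg
  | stop
  deriving DecidableEq

/-- The literal `x_i` is written `one^i pos`, its negation `one^i neg`. -/
def encLit (l : ℕ × Bool) : List Tok :=
  List.replicate l.1 Tok.one ++ [if l.2 then Tok.pos else Tok.neg]

/-- A formula is written clause by clause, literal by literal; every clause is ended by `stop`. -/
def encCNF (φ : CNF) : List Tok := φ.flatMap (fun c => c.flatMap encLit ++ [Tok.stop])

/-- The finite simple graphs, with vertices `0, …, n - 1`. -/
abbrev FinGraph : Type := Σ n : ℕ, SimpleGraph (Fin n)

open Classical in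
/-- The adjacency matrix of a graph, row by row. -/
noncomputable def encGraph (G : FinGraph) : List Bool :=
  (List.finRange G.1).flatMap (fun a => (List.finRange G.1).map (fun b => decide (G.2.Adj a b)))

/-- A list of numbers is written with `v` written as `true^v false`. -/
def encOrder (l : List ℕ) : List Bool := l.flatMap (fun v => List.replicate v true ++ [false])

section orders

variable {n : ℕ} (G : SimpleGraph (Fin n)) (l : List (Fin n))

/-- `l` lists every vertex exactly once, i.e. it is a linear order of the vertex set. -/
def IsOrder : Prop := l.Nodup ∧ ∀ v, v ∈ l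

/-- The number of neighbours of `v` that come before `v` in the order `l`. -/
noncomputable def dMinus (v : Fin n) : ℕ := {u | G.Adj v u ∧ l.idxOf u < l.idxOf v}.ncard

/-- The number of neighbours of `v` that come after `v` in the order `l`. -/
noncomputable def dPlus (v : Fin n) : ℕ := {u | G.Adj v u ∧ l.idxOf v < l.idxOf u}.ncard

/-- `l` is a Type-A order of `G`. -/
def IsTypeA : Prop := IsOrder l ∧ ∀ v, Odd (dMinus G l v) ∨ dMinus G l v = 0

/-- `l` is a Type-B order of `G`. -/
def IsTypeB : Prop := IsOrder l ∧ ∀ v, (Odd (dMinus G l v) ∨ dMinus G l v = 0) ∨
  (Even (dMinus G l v) ∧ dPlus G l v = 0)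

end orders

/-- Satisfiability of formulas can be decided by a machine in polynomial time. -/
def SATinP : Prop :=
  open Classical in
  Nonempty (Turing.TM2ComputableInPolyTime encCNF Computability.encodeBool
    (fun φ => decide (Satisfiable φ)))

/-- There is a machine that, on every graph `G` which has an order of type `T`, halts within
polynomial time with the list of the vertices of `G` in an order of type `T`; nothing is required
on the other inputs. -/
def PolyTimeFinder (T : ∀ {n : ℕ}, SimpleGraph (Fin n) → List (Fin n) → Prop) : Prop :=
  ∃ f : {G : FinGraph // ∃ l, T G.2 l} → List Bool,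
    Nonempty (Turing.TM2ComputableInPolyTime
      (fun G : {G : FinGraph // ∃ l, T G.2 l} => encGraph G.1) (id : List Bool → List Bool) f) ∧
    ∀ G : {G : FinGraph // ∃ l, T G.2 l}, ∃ l, T G.1.2 l ∧ f G = encOrder (l.map Fin.val)

end Pool.Agent.W_MP_c8d28d_lc
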