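import Pool.Agent.W_MP_c8d28d_lc.Gadget

set_option autoImplicit false

namespace Pool.Agent.W_MP_c8d28d_lc

variable {φ : List (List (ℕ × Bool))} {M : ℕ} {S : Finset W} {pos : W → ℕ}

/-- neighbours in `S` -/
def nb (S : Finset W) (x : W) : Finset W := S.filter (fun y => adj x y)

theorem dn_eq (x : W) : dn S pos x = (nb S x).filter (fun y => pos y < pos x) := by
  rw [nb, Finset.filter_filter, dn]

theorem up_eq (x : W) : up S pos x = (nb S x).filter (fun y => pos x < pos y) := by
  rw [nb, Finset.filter_filter, up]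

theorem card1 (p : W → Prop) [DecidablePred p] (s : Finset W) {a : W} (ha : a ∉ s) :
    ((insert a s).filter p).card = (if p a then 1 else 0) + (s.filter p).card := by
  rw [Finset.filter_insert]
  split
  · rw [Finset.card_insert_of_notMem (by simp [ha])]
    omega
  · omega

theorem card3 (p : W → Prop) [DecidablePred p] {a b c : W} (hab : a ≠ b) (hac : a ≠ c)
    (hbc : b ≠ c) : (({a, b, c} : Finset W).filter p).card =
      (if p a then 1 else 0) + (if p b then 1 else 0) + (if p c then 1 else 0) := by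
  rw [card1 _ _ (by simp [hab, hac]), card1 _ _ (by simp [hbc]), Finset.filter_singleton]
  split_ifs <;> simp

theorem card5 (p : W → Prop) [DecidablePred p] {a b c d e : W} (ha : a ∉ ({b, c, d, e} : Finset W))
    (hb : b ∉ ({c, d, e} : Finset W)) (h1 : c ≠ d) (h2 : c ≠ e) (h3 : d ≠ e) :
    (({a, b, c, d, e} : Finset W).filter p).card =
      (if p a then 1 else 0) + ((if p b then 1 else 0) +
      ((if p c then 1 else 0) + (if p d then 1 else 0) + (if p e then 1 else 0))) := by
  rw [card1 _ _ ha, card1 _ _ hb, card3 _ h1 h2 h3]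

theorem cardA (p : W → Prop) [DecidablePred p] {a b c : W} {A : Finset W}
    (hab : a ≠ b) (hac : a ≠ c) (hbc : b ≠ c) (ha : a ∉ A) (hb : b ∉ A) (hc : c ∉ A) :
    ((insert a (insert b (insert c A))).filter p).card =
      (if p a then 1 else 0) + ((if p b then 1 else 0) +
      ((if p c then 1 else 0) + (A.filter p).card)) := by
  rw [card1 _ _ (by simp [hab, hac, ha]), card1 _ _ (by simp [hbc, hb]), card1 _ _ hc]

theorem ind {a b : ℕ} (h : a ≠ b) :
    (if a < b then 1 else 0) + (if b < a then 1 else 0) = 1 := by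
  rcases lt_or_gt_of_ne h with q | q
  · rw [if_pos q, if_neg (by omega)]
  · rw [if_neg (by omega), if_pos q]

theorem ind_iff {a b n : ℕ} (h : (if a < b then 1 else 0) = n) : (a < b ↔ n = 1) := by
  split at h <;> omega

/-- In a `K4` with root `r` whose other three vertices have no further neighbours, the root
comes third. -/
theorem k4 {r x y z : W} (h1 : r ≠ x) (h2 : r ≠ y) (h3 : r ≠ z) (h4 : x ≠ y) (h5 : x ≠ z)
    (h6 : y ≠ z) (nx : nb S x = {r, y, z}) (ny : nb S y = {r, x, z}) (nz : nb S z = {r, x, y})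
    (p1 : pos r ≠ pos x) (p2 : pos r ≠ pos y) (p3 : pos r ≠ pos z) (p4 : pos x ≠ pos y)
    (p5 : pos x ≠ pos z) (p6 : pos y ≠ pos z)
    (bx : condB S pos x) (by' : condB S pos y) (bz : condB S pos z) :
    (if pos x < pos r then 1 else 0) + (if pos y < pos r then 1 else 0) +
      (if pos z < pos r then 1 else 0) = 2 := by
  unfold condB at bx by' bz
  rw [dn_eq, up_eq, nx, card3 _ h2 h3 h6, card3 _ h2 h3 h6, Nat.odd_iff, Nat.even_iff] at bx
  rw [dn_eq, up_eq, ny, card3 _ h1 h3 h5, card3 _ h1 h3 h5, Nat.odd_iff, Nat.even_iff] at by'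
  rw [dn_eq, up_eq, nz, card3 _ h1 h2 h4, card3 _ h1 h2 h4, Nat.odd_iff, Nat.even_iff] at bz
  rcases lt_or_gt_of_ne p1 with q1 | q1 <;> rcases lt_or_gt_of_ne p2 with q2 | q2 <;>
  rcases lt_or_gt_of_ne p3 with q3 | q3 <;> rcases lt_or_gt_of_ne p4 with q4 | q4 <;>
  rcases lt_or_gt_of_ne p5 with q5 | q5 <;> rcases lt_or_gt_of_ne p6 with q6 | q6 <;>
  simp only [q1, q2, q3, q4, q5, q6, if_true, if_false, not_lt_of_gt] at bx by' bz ⊢ <;> omega

theorem nb_eq (hS : ∀ x, x ∈ S ↔ Valid φ M x) (x : W) (T : Finset W)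
    (h : ∀ y, y ∈ T ↔ Valid φ M y ∧ adj x y) : nb S x = T := by
  ext y
  rw [h, nb, Finset.mem_filter, hS]

theorem nb_oc2 (hS : ∀ x, x ∈ S ↔ Valid φ M x) {j k : ℕ} {l : ℕ × Bool} {t : Fin 5}
    (hx : Valid φ M (W.oc t j k l)) (ht : t ≠ 0 ∧ t ≠ 1) :
    nb S (W.oc t j k l) = (Finset.univ.filter (fun t' : Fin 5 => t' ≠ t ∧ t' ≠ 0)).image
      (fun t' => W.oc t' j k l) := by
  apply nb_eq hS
  intro y
  simp only [Finset.mem_image, Finset.mem_filter, Finset.mem_univ, true_and]
  constructor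
  · rintro ⟨t', h1, rfl⟩
    refine ⟨hx, ⟨rfl, rfl, rfl⟩, fun e => h1.1 e.symm, fun e => absurd e ht.1,
      fun e => absurd e h1.2⟩
  · rintro ⟨h1, h2⟩
    cases y with
    | lit l' =>
      simp only [adj] at h2
      tauto
    | cl t' j' =>
      simp only [adj] at h2
      exact absurd h2.2.1 ht.1
    | oc t' j' k' l' =>
      simp only [adj] at h2
      obtain ⟨⟨rfl, rfl, rfl⟩, h3, h4, h5⟩ := h2
      exact ⟨t', ⟨fun e => h3 e.symm, fun e => ht.2 (h5 e)⟩, rfl⟩

theorem nb_oc1 (hS : ∀ x, x ∈ S ↔ Valid φ M x) {j k : ℕ} {l : ℕ × Bool}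
    (hx : Valid φ M (W.oc 1 j k l)) (hl : l.1 < M) :
    nb S (W.oc 1 j k l) = {W.lit l, W.oc 0 j k l, W.oc 2 j k l, W.oc 3 j k l, W.oc 4 j k l} := by
  apply nb_eq hS
  intro y
  simp only [Finset.mem_insert, Finset.mem_singleton]
  constructor
  · rintro (rfl | rfl | rfl | rfl | rfl)
    · exact ⟨hl, Or.inr rfl, rfl⟩
    · exact ⟨hx, ⟨rfl, rfl, rfl⟩, by decide, by decide, by decide⟩
    · exact ⟨hx, ⟨rfl, rfl, rfl⟩, by decide, by decide, by decide⟩
    · exact ⟨hx, ⟨rfl, rfl, rfl⟩, by decide, by decide, by decide⟩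
    · exact ⟨hx, ⟨rfl, rfl, rfl⟩, by decide, by decide, by decide⟩
  · rintro ⟨h1, h2⟩
    cases y with
    | lit l' =>
      simp only [adj] at h2
      obtain ⟨-, rfl⟩ := h2
      simp
    | cl t' j' =>
      simp only [adj] at h2
      exact absurd h2.2.1 (by decide)
    | oc t' j' k' l' =>
      simp only [adj] at h2
      obtain ⟨⟨rfl, rfl, rfl⟩, h3, h4, h5⟩ := h2
      clear h1
      simp only [reduceCtorEq, W.oc.injEq, and_true, false_or]
      revert h3 h4 h5
      revert t'
      decide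

theorem nb_oc0 (hS : ∀ x, x ∈ S ↔ Valid φ M x) {j k : ℕ} {l : ℕ × Bool}
    (hx : Valid φ M (W.oc 0 j k l)) (hl : l.1 < M) (hj : j < φ.length) :
    nb S (W.oc 0 j k l) = {W.lit l, W.oc 1 j k l, W.cl 0 j} := by
  apply nb_eq hS
  intro y
  simp only [Finset.mem_insert, Finset.mem_singleton]
  constructor
  · rintro (rfl | rfl | rfl)
    · exact ⟨hl, Or.inl rfl, rfl⟩
    · exact ⟨hx, ⟨rfl, rfl, rfl⟩, by decide, by decide, by decide⟩
    · exact ⟨hj, rfl, rfl, rfl⟩
  · rintro ⟨h1, h2⟩
    cases y with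
    | lit l' =>
      simp only [adj] at h2
      obtain ⟨-, rfl⟩ := h2
      simp
    | cl t' j' =>
      simp only [adj] at h2
      obtain ⟨rfl, -, rfl⟩ := h2
      simp
    | oc t' j' k' l' =>
      simp only [adj] at h2
      obtain ⟨⟨rfl, rfl, rfl⟩, h3, h4, h5⟩ := h2
      have := h4 trivial
      subst this
      simp

theorem nb_cl (hS : ∀ x, x ∈ S ↔ Valid φ M x) {j : ℕ} {t : Fin 4}
    (hx : Valid φ M (W.cl t j)) (ht : t ≠ 0) :
    nb S (W.cl t j) = (Finset.univ.filter (fun t' : Fin 4 => t' ≠ t)).image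
      (fun t' => W.cl t' j) := by
  apply nb_eq hS
  intro y
  simp only [Finset.mem_image, Finset.mem_filter, Finset.mem_univ, true_and]
  constructor
  · rintro ⟨t', h1, rfl⟩
    exact ⟨hx, rfl, fun e => h1 e.symm⟩
  · rintro ⟨h1, h2⟩
    cases y with
    | lit l' => simp [adj] at h2
    | cl t' j' =>
      simp only [adj] at h2
      obtain ⟨rfl, h2⟩ := h2
      exact ⟨t', fun e => h2 e.symm, rfl⟩
    | oc t' j' k' l' =>
      simp only [adj] at h2
      exact absurd h2.1 ht

theorem oc_odd (hS : ∀ x, x ∈ S ↔ Valid φ M x)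
    (hpos : ∀ x ∈ S, ∀ y ∈ S, pos x = pos y → x = y)
    (hB : ∀ x ∈ S, condB S pos x) {j k : ℕ} {l : ℕ × Bool}
    (hx : Valid φ M (W.oc 1 j k l)) (hl : l.1 < M) :
    (if pos (W.lit l) < pos (W.oc 1 j k l) then 1 else 0) +
      (if pos (W.oc 0 j k l) < pos (W.oc 1 j k l) then 1 else 0) = 1 := by
  have hv : ∀ t : Fin 5, W.oc t j k l ∈ S := fun t => by rw [hS]; exact hx
  have hne : ∀ t t' : Fin 5, t ≠ t' → W.oc t j k l ≠ W.oc t' j k l := by
    intro t t' h e
    apply h
    simpa using e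
  have hp : ∀ t t' : Fin 5, t ≠ t' → pos (W.oc t j k l) ≠ pos (W.oc t' j k l) := by
    intro t t' h e
    exact hne t t' h (hpos _ (hv t) _ (hv t') e)
  have n2 : nb S (W.oc 2 j k l) = {W.oc 1 j k l, W.oc 3 j k l, W.oc 4 j k l} := by
    rw [nb_oc2 (t := 2) hS hx (by decide)]
    have : (Finset.univ.filter (fun t' : Fin 5 => t' ≠ 2 ∧ t' ≠ 0)) = {1, 3, 4} := by decide
    rw [this]
    simp [Finset.image_insert]
  have n3 : nb S (W.oc 3 j k l) = {W.oc 1 j k l, W.oc 2 j k l, W.oc 4 j k l} := by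
    rw [nb_oc2 (t := 3) hS hx (by decide)]
    have : (Finset.univ.filter (fun t' : Fin 5 => t' ≠ 3 ∧ t' ≠ 0)) = {1, 2, 4} := by decide
    rw [this]
    simp [Finset.image_insert]
  have n4 : nb S (W.oc 4 j k l) = {W.oc 1 j k l, W.oc 2 j k l, W.oc 3 j k l} := by
    rw [nb_oc2 (t := 4) hS hx (by decide)]
    have : (Finset.univ.filter (fun t' : Fin 5 => t' ≠ 4 ∧ t' ≠ 0)) = {1, 2, 3} := by decide
    rw [this]
    simp [Finset.image_insert]
  have hk := k4 (hne 1 2 (by decide)) (hne 1 3 (by decide)) (hne 1 4 (by decide))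
    (hne 2 3 (by decide)) (hne 2 4 (by decide)) (hne 3 4 (by decide)) n2 n3 n4
    (hp 1 2 (by decide)) (hp 1 3 (by decide)) (hp 1 4 (by decide))
    (hp 2 3 (by decide)) (hp 2 4 (by decide)) (hp 3 4 (by decide))
    (hB _ (hv 2)) (hB _ (hv 3)) (hB _ (hv 4))
  have hb := hB _ (hv 1)
  unfold condB at hb
  rw [dn_eq, up_eq, nb_oc1 hS hx hl, card5 _ (by simp) (by simp) (by simp) (by simp) (by simp),
    card5 _ (by simp) (by simp) (by simp) (by simp) (by simp), Nat.odd_iff, Nat.even_iff] at hb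
  have q2 := hp 1 2 (by decide)
  have q3 := hp 1 3 (by decide)
  have q4 := hp 1 4 (by decide)
  have q5 := hp 0 1 (by decide)
  have q6 : pos (W.lit l) ≠ pos (W.oc 1 j k l) := by
    intro e
    have := hpos _ (by rw [hS]; exact hl) _ (hv 1) e
    cases this
  have i2 := ind q2
  have i3 := ind q3
  have i4 := ind q4
  generalize (if pos (W.oc 1 j k l) < pos (W.oc 2 j k l) then 1 else 0) = e2 at *
  generalize (if pos (W.oc 2 j k l) < pos (W.oc 1 j k l) then 1 else 0) = f2 at *
  generalize (if pos (W.oc 1 j k l) < pos (W.oc 3 j k l) then 1 else 0) = e3 at *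
  generalize (if pos (W.oc 3 j k l) < pos (W.oc 1 j k l) then 1 else 0) = f3 at *
  generalize (if pos (W.oc 1 j k l) < pos (W.oc 4 j k l) then 1 else 0) = e4 at *
  generalize (if pos (W.oc 4 j k l) < pos (W.oc 1 j k l) then 1 else 0) = f4 at *
  have u1 : (if pos (W.lit l) < pos (W.oc 1 j k l) then 1 else 0) ≤ 1 := by split <;> omega
  have u2 : (if pos (W.oc 0 j k l) < pos (W.oc 1 j k l) then 1 else 0) ≤ 1 := by
    split <;> omega
  generalize (if pos (W.lit l) < pos (W.oc 1 j k l) then 1 else 0) = g1 at *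
  generalize (if pos (W.oc 0 j k l) < pos (W.oc 1 j k l) then 1 else 0) = g2 at *
  generalize (if pos (W.oc 1 j k l) < pos (W.lit l) then 1 else 0) = h1 at *
  generalize (if pos (W.oc 1 j k l) < pos (W.oc 0 j k l) then 1 else 0) = h2 at *
  omega

theorem cl_odd (hS : ∀ x, x ∈ S ↔ Valid φ M x)
    (hpos : ∀ x ∈ S, ∀ y ∈ S, pos x = pos y → x = y)
    (hB : ∀ x ∈ S, condB S pos x) {j : ℕ} (hj : j < φ.length) :
    ∃ (k : ℕ) (l : ℕ × Bool), Valid φ M (W.oc 0 j k l) ∧
      pos (W.oc 0 j k l) < pos (W.cl 0 j) := by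
  classical
  have hv : ∀ t : Fin 4, W.cl t j ∈ S := fun t => by rw [hS]; exact hj
  have hne : ∀ t t' : Fin 4, t ≠ t' → W.cl t j ≠ W.cl t' j := by
    intro t t' h e
    apply h
    simpa using e
  have hp : ∀ t t' : Fin 4, t ≠ t' → pos (W.cl t j) ≠ pos (W.cl t' j) := by
    intro t t' h e
    exact hne t t' h (hpos _ (hv t) _ (hv t') e)
  have n1 : nb S (W.cl 1 j) = {W.cl 0 j, W.cl 2 j, W.cl 3 j} := by
    rw [nb_cl hS hj (by decide)]
    have : (Finset.univ.filter (fun t' : Fin 4 => t' ≠ 1)) = {0, 2, 3} := by decide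
    rw [this]
    simp [Finset.image_insert]
  have n2 : nb S (W.cl 2 j) = {W.cl 0 j, W.cl 1 j, W.cl 3 j} := by
    rw [nb_cl hS hj (by decide)]
    have : (Finset.univ.filter (fun t' : Fin 4 => t' ≠ 2)) = {0, 1, 3} := by decide
    rw [this]
    simp [Finset.image_insert]
  have n3 : nb S (W.cl 3 j) = {W.cl 0 j, W.cl 1 j, W.cl 2 j} := by
    rw [nb_cl hS hj (by decide)]
    have : (Finset.univ.filter (fun t' : Fin 4 => t' ≠ 3)) = {0, 1, 2} := by decide
    rw [this]
    simp [Finset.image_insert]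
  have hk := k4 (hne 0 1 (by decide)) (hne 0 2 (by decide)) (hne 0 3 (by decide))
    (hne 1 2 (by decide)) (hne 1 3 (by decide)) (hne 2 3 (by decide)) n1 n2 n3
    (hp 0 1 (by decide)) (hp 0 2 (by decide)) (hp 0 3 (by decide))
    (hp 1 2 (by decide)) (hp 1 3 (by decide)) (hp 2 3 (by decide))
    (hB _ (hv 1)) (hB _ (hv 2)) (hB _ (hv 3))
  set A : Finset W := S.filter (fun y => ∃ (k : ℕ) (l : ℕ × Bool), y = W.oc 0 j k l) with hA
  have hnA : ∀ t : Fin 4, W.cl t j ∉ A := by
    intro t h
    rw [hA, Finset.mem_filter] at h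
    obtain ⟨-, k, l, h⟩ := h
    cases h
  have n0 : nb S (W.cl 0 j) = insert (W.cl 1 j) (insert (W.cl 2 j) (insert (W.cl 3 j) A)) := by
    ext y
    simp only [nb, Finset.mem_filter, Finset.mem_insert, hA]
    constructor
    · rintro ⟨h1, h2⟩
      cases y with
      | lit l' => simp [adj] at h2
      | cl t' j' =>
        simp only [adj] at h2
        obtain ⟨rfl, h2⟩ := h2
        clear h1
        simp only [W.cl.injEq, and_true, reduceCtorEq, exists_false, and_false, or_false]
        revert h2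
        revert t'
        decide
      | oc t' j' k' l' =>
        simp only [adj] at h2
        obtain ⟨-, rfl, rfl⟩ := h2
        exact Or.inr (Or.inr (Or.inr ⟨h1, k', l', rfl⟩))
    · rintro (rfl | rfl | rfl | ⟨h1, k, l, rfl⟩)
      · exact ⟨hv _, rfl, by decide⟩
      · exact ⟨hv _, rfl, by decide⟩
      · exact ⟨hv _, rfl, by decide⟩
      · exact ⟨h1, rfl, rfl, rfl⟩
  have hb := hB _ (hv 0)
  unfold condB at hb
  rw [dn_eq, up_eq, n0, cardA _ (by simp) (by simp) (by simp) (hnA _) (hnA _) (hnA _),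
    cardA _ (by simp) (by simp) (by simp) (hnA _) (hnA _) (hnA _),
    Nat.odd_iff, Nat.even_iff] at hb
  have q1 := hp 0 1 (by decide)
  have q2 := hp 0 2 (by decide)
  have q3 := hp 0 3 (by decide)
  by_contra hcon
  have hempty : (A.filter (fun y => pos y < pos (W.cl 0 j))).card = 0 := by
    rw [Finset.card_eq_zero, Finset.filter_eq_empty_iff]
    intro y hy hlt
    rw [hA, Finset.mem_filter] at hy
    obtain ⟨h1, k, l, rfl⟩ := hy
    exact hcon ⟨k, l, by rw [← hS]; exact h1, hlt⟩
  rw [hempty] at hb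
  have i1 := ind q1
  have i2 := ind q2
  have i3 := ind q3
  generalize (if pos (W.cl 1 j) < pos (W.cl 0 j) then 1 else 0) = e1 at *
  generalize (if pos (W.cl 0 j) < pos (W.cl 1 j) then 1 else 0) = f1 at *
  generalize (if pos (W.cl 2 j) < pos (W.cl 0 j) then 1 else 0) = e2 at *
  generalize (if pos (W.cl 0 j) < pos (W.cl 2 j) then 1 else 0) = f2 at *
  generalize (if pos (W.cl 3 j) < pos (W.cl 0 j) then 1 else 0) = e3 at *
  generalize (if pos (W.cl 0 j) < pos (W.cl 3 j) then 1 else 0) = f3 at *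
  omega

theorem sound (hS : ∀ x, x ∈ S ↔ Valid φ M x)
    (hM : ∀ (j : ℕ) (d : List (ℕ × Bool)) (k : ℕ) (l : ℕ × Bool),
      φ[j]? = some d → d[k]? = some l → l.1 < M)
    (hpos : ∀ x ∈ S, ∀ y ∈ S, pos x = pos y → x = y)
    (hB : ∀ x ∈ S, condB S pos x) :
    ∀ d ∈ φ, ∃ l ∈ d, decide (pos (W.lit (l.1, false)) < pos (W.lit (l.1, true))) = l.2 := by
  classical
  intro d hd
  obtain ⟨j, hjd⟩ := List.mem_iff_getElem?.1 hd
  have hj : j < φ.length := by
    rw [List.getElem?_eq_some_iff] at hjd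
    exact hjd.1
  obtain ⟨k, l, hval, hlt⟩ := cl_odd hS hpos hB hj
  obtain ⟨d', hd', hk⟩ := id hval
  rw [hjd] at hd'
  simp only [Option.some.injEq] at hd'
  subst hd'
  have hl : l.1 < M := hM j d k l hjd hk
  refine ⟨l, List.mem_of_getElem? hk, ?_⟩
  -- the partner of the literal `l`
  have hlS : W.lit l ∈ S := by rw [hS]; exact hl
  have hpS : W.lit (l.1, !l.2) ∈ S := by rw [hS]; exact hl
  have hpne : pos (W.lit l) ≠ pos (W.lit (l.1, !l.2)) := by
    intro e
    have := hpos _ hlS _ hpS e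
    simp only [W.lit.injEq] at this
    have h2 := congrArg Prod.snd this
    simp at h2
  have main : pos (W.lit (l.1, !l.2)) < pos (W.lit l) := by
    by_contra hcon
    have hlt' : pos (W.lit l) < pos (W.lit (l.1, !l.2)) := by omega
    have hB1 := hB _ hlS
    have hup : (up S pos (W.lit l)).card ≠ 0 := by
      rw [Finset.card_ne_zero]
      exact ⟨_, Finset.mem_filter.2 ⟨hpS, ⟨rfl, by simp⟩, hlt'⟩⟩
    have hev : Even (dn S pos (W.lit l)).card := by
      have key : ∀ y ∈ dn S pos (W.lit l), ∃ (t : Fin 5) (j k : ℕ), (t = 0 ∨ t = 1) ∧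
          y = W.oc t j k l ∧ Valid φ M (W.oc t j k l) := by
        intro y hy
        rw [dn, Finset.mem_filter] at hy
        obtain ⟨h1, h2, h3⟩ := hy
        cases y with
        | lit l' =>
          exfalso
          simp only [adj] at h2
          have : l' = (l.1, !l.2) := by
            ext
            · exact h2.1.symm
            · have := h2.2
              simp only
              cases h5 : l.2 <;> cases h6 : l'.2 <;> simp_all
          subst this
          omega
        | cl t' j' => simp [adj] at h2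
        | oc t' j' k' l' =>
          simp only [adj] at h2
          obtain ⟨h2, rfl⟩ := h2
          exact ⟨t', j', k', h2, rfl, by rw [← hS]; exact h1⟩
      have pair : ∀ j k : ℕ, Valid φ M (W.oc 1 j k l) →
          (pos (W.oc 0 j k l) < pos (W.lit l) ↔ pos (W.oc 1 j k l) < pos (W.lit l)) := by
        intro j k hv
        have h1 := oc_odd hS hpos hB hv hl
        have h2 : pos (W.lit l) ≠ pos (W.oc 1 j k l) := by
          intro e
          have := hpos _ hlS _ (by rw [hS]; exact hv) e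
          cases this
        have h3 : pos (W.lit l) ≠ pos (W.oc 0 j k l) := by
          intro e
          have := hpos _ hlS _ (by rw [hS]; exact hv) e
          cases this
        have h4 : pos (W.oc 0 j k l) ≠ pos (W.oc 1 j k l) := by
          intro e
          have := hpos _ (by rw [hS]; exact hv) _ (by rw [hS]; exact hv) e
          simp at this
        split_ifs at h1 <;> omega
      refine even_card_of_invol _ swp ?_ ?_ ?_
      · intro a ha
        obtain ⟨t, j, k, h1, rfl, h2⟩ := key a ha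
        rw [dn, Finset.mem_filter] at ha ⊢
        have hp := pair j k h2
        obtain ⟨h3, h4, h5⟩ := ha
        rcases h1 with rfl | rfl
        · refine ⟨by rw [hS]; exact h2, ⟨Or.inr rfl, rfl⟩, hp.1 h5⟩
        · refine ⟨by rw [hS]; exact h2, ⟨Or.inl rfl, rfl⟩, hp.2 h5⟩
      · intro a ha
        obtain ⟨t, j, k, h1, rfl, h2⟩ := key a ha
        rcases h1 with rfl | rfl <;> rfl
      · intro a ha
        obtain ⟨t, j, k, h1, rfl, h2⟩ := key a ha
        rcases h1 with rfl | rfl <;> simp [swp]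
    have h0 : (dn S pos (W.lit l)).card = 0 := by
      rcases hB1 with (h | h) | h
      · exact absurd hev (Nat.not_even_iff_odd.2 h)
      · exact h
      · exact absurd h.2 hup
    rw [Finset.card_eq_zero] at h0
    have hnb : ∀ t : Fin 5, (t = 0 ∨ t = 1) → pos (W.lit l) < pos (W.oc t j k l) := by
      intro t ht
      by_contra hc
      have hne : pos (W.lit l) ≠ pos (W.oc t j k l) := by
        intro e
        have := hpos _ hlS _ (by rw [hS]; exact hval) e
        cases this
      have : W.oc t j k l ∈ dn S pos (W.lit l) := by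
        rw [dn, Finset.mem_filter]
        exact ⟨by rw [hS]; exact hval, ⟨ht, rfl⟩, by omega⟩
      rw [h0] at this
      simp at this
    have a0 := hnb 0 (Or.inl rfl)
    have a1 := hnb 1 (Or.inr rfl)
    have hodd := oc_odd hS hpos hB (j := j) (k := k) (l := l) hval hl
    have h4 : pos (W.oc 0 j k l) ≠ pos (W.oc 1 j k l) := by
      intro e
      have := hpos _ (by rw [hS]; exact hval) _ (by rw [hS]; exact hval) e
      simp at this
    have hb := hB (W.oc 0 j k l) (by rw [hS]; exact hval)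
    unfold condB at hb
    rw [dn_eq, up_eq, nb_oc0 hS hval hl hj, card3 _ (by simp) (by simp) (by simp),
      card3 _ (by simp) (by simp) (by simp), Nat.odd_iff, Nat.even_iff] at hb
    have hnot : ¬ pos (W.oc 0 j k l) < pos (W.oc 1 j k l) := by
      intro h
      rw [if_pos a1, if_pos h] at hodd
      omega
    have hlt2 : pos (W.oc 1 j k l) < pos (W.oc 0 j k l) := by omega
    have hnot2 : ¬ pos (W.cl 0 j) < pos (W.oc 0 j k l) := by omega
    have hnot3 : ¬ pos (W.oc 0 j k l) < pos (W.lit l) := by omega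
    simp only [if_pos a0, if_pos hlt2, if_neg hnot2, if_neg hnot3, if_neg hnot, if_pos hlt] at hb
    omega
  cases h : l.2
  · rw [h] at main
    simp only [decide_eq_false_iff_not, not_lt]
    have : l = (l.1, false) := by ext <;> simp [h]
    rw [this] at main
    exact le_of_lt main
  · rw [h] at main
    simp only [decide_eq_true_eq]
    have : l = (l.1, true) := by ext <;> simp [h]
    rw [this] at main
    exact main

end Pool.Agent.W_MP_c8d28d_lc
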