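import Pool.Agent.W_MP_c8d28d_lc.Complete
import Pool.Agent.W_MP_c8d28d_lc.Sound
import Pool.Agent.W_MP_c8d28d_lc.Defs

set_option autoImplicit false

namespace Pool.Agent.W_MP_c8d28d_lc

/-- a bound for the variables of a formula -/
def bd (φ : CNF) : ℕ := (φ.flatten.flatMap (fun l => List.range (l.1 + 1))).length

theorem lt_bd {φ : CNF} {l : ℕ × Bool} (h : l ∈ φ.flatten) : l.1 < bd φ := by
  unfold bd
  rw [List.length_flatMap]
  have : (l.1 + 1) ∈ φ.flatten.map (fun l => (List.range (l.1 + 1)).length) :=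
    List.mem_map.2 ⟨l, h, by simp⟩
  have h2 := List.le_sum_of_mem this
  omega

/-- the literal vertices -/
def litVerts (M : ℕ) : List W :=
  (List.range M).flatMap (fun i => [W.lit (i, true), W.lit (i, false)])

/-- the vertices belonging to a clause -/
def clauseVerts (d : List (ℕ × Bool)) (j : ℕ) : List W :=
  ([0, 1, 2, 3] : List (Fin 4)).map (fun t => W.cl t j) ++
    d.zipIdx.flatMap (fun x => ([0, 1, 2, 3, 4] : List (Fin 5)).map (fun t => W.oc t j x.2 x.1))

/-- all vertices -/
def verts (φ : CNF) : List W :=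
  litVerts (bd φ) ++ φ.zipIdx.flatMap (fun x => clauseVerts x.1 x.2)

theorem mem_litVerts {M : ℕ} {x : W} : x ∈ litVerts M ↔ ∃ l : ℕ × Bool, l.1 < M ∧ x = .lit l := by
  simp only [litVerts, List.mem_flatMap, List.mem_range, List.mem_cons, List.not_mem_nil, or_false]
  constructor
  · rintro ⟨i, hi, rfl | rfl⟩
    · exact ⟨(i, true), hi, rfl⟩
    · exact ⟨(i, false), hi, rfl⟩
  · rintro ⟨⟨i, b⟩, hi, rfl⟩
    refine ⟨i, hi, ?_⟩
    cases b
    · exact Or.inr rfl
    · exact Or.inl rfl

theorem mem_clauseVerts {d : List (ℕ × Bool)} {j : ℕ} {x : W} : x ∈ clauseVerts d j ↔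
    (∃ t, x = .cl t j) ∨ ∃ t k l, d[k]? = some l ∧ x = .oc t j k l := by
  simp only [clauseVerts, List.mem_append, List.mem_map, List.mem_flatMap,
    List.mem_zipIdx_iff_getElem?]
  have h4 : ∀ t : Fin 4, t ∈ ([0, 1, 2, 3] : List (Fin 4)) := by decide
  have h5 : ∀ t : Fin 5, t ∈ ([0, 1, 2, 3, 4] : List (Fin 5)) := by decide
  constructor
  · rintro (⟨t, _, rfl⟩ | ⟨⟨l, k⟩, h, t, _, rfl⟩)
    · exact Or.inl ⟨t, rfl⟩
    · exact Or.inr ⟨t, k, l, h, rfl⟩
  · rintro (⟨t, rfl⟩ | ⟨t, k, l, h, rfl⟩)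
    · exact Or.inl ⟨t, h4 t, rfl⟩
    · exact Or.inr ⟨(l, k), h, t, h5 t, rfl⟩

theorem mem_verts (φ : CNF) (x : W) : x ∈ verts φ ↔ Valid φ (bd φ) x := by
  simp only [verts, List.mem_append, mem_litVerts, List.mem_flatMap,
    List.mem_zipIdx_iff_getElem?, mem_clauseVerts]
  constructor
  · rintro (⟨l, h, rfl⟩ | ⟨⟨d, j⟩, h, ⟨t, rfl⟩ | ⟨t, k, l, h2, rfl⟩⟩)
    · exact h
    · exact (List.getElem?_eq_some_iff.1 h).1
    · exact ⟨d, h, h2⟩
  · intro h
    cases x with
    | lit l => exact Or.inl ⟨l, h, rfl⟩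
    | cl t j =>
      refine Or.inr ⟨(φ[j]'h, j), ?_, Or.inl ⟨t, rfl⟩⟩
      simp only [List.getElem?_eq_getElem h]
    | oc t j k l =>
      obtain ⟨d, h1, h2⟩ := h
      exact Or.inr ⟨(d, j), h1, Or.inr ⟨t, k, l, h2, rfl⟩⟩

theorem pairwise_zipIdx {α : Type} (l : List α) : l.zipIdx.Pairwise (fun a b => a.2 ≠ b.2) := by
  have h : (l.zipIdx.map Prod.snd).Nodup := by
    rw [List.zipIdx_map_snd]
    exact List.nodup_range'
  exact List.pairwise_map.1 h

theorem nodup_litVerts (M : ℕ) : (litVerts M).Nodup := by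
  unfold litVerts
  rw [List.nodup_flatMap]
  refine ⟨fun i _ => by simp, ?_⟩
  refine List.Pairwise.imp ?_ List.nodup_range
  intro a b hab x hx hy
  simp only [List.mem_cons, List.not_mem_nil, or_false] at hx hy
  rcases hx with rfl | rfl <;> rcases hy with h | h <;> simp_all

theorem nodup_clauseVerts (d : List (ℕ × Bool)) (j : ℕ) : (clauseVerts d j).Nodup := by
  unfold clauseVerts
  rw [List.nodup_append']
  refine ⟨?_, ?_, ?_⟩
  · refine List.Nodup.map (fun a b h => ?_) (by decide)
    simpa using h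
  · rw [List.nodup_flatMap]
    refine ⟨fun x _ => List.Nodup.map (fun a b h => by simpa using h) (by decide), ?_⟩
    refine List.Pairwise.imp ?_ (pairwise_zipIdx d)
    intro a b hab x hx hy
    simp only [List.mem_map] at hx hy
    obtain ⟨t, _, rfl⟩ := hx
    obtain ⟨t', _, h⟩ := hy
    simp only [W.oc.injEq] at h
    exact hab h.2.2.1.symm
  · intro x hx hy
    simp only [List.mem_map, List.mem_flatMap] at hx hy
    obtain ⟨t, _, rfl⟩ := hx
    obtain ⟨_, _, t', _, h⟩ := hy
    simp at h

theorem nodup_verts (φ : CNF) : (verts φ).Nodup := by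
  unfold verts
  rw [List.nodup_append']
  refine ⟨nodup_litVerts _, ?_, ?_⟩
  · rw [List.nodup_flatMap]
    refine ⟨fun x _ => nodup_clauseVerts _ _, ?_⟩
    refine List.Pairwise.imp ?_ (pairwise_zipIdx φ)
    intro a b hab x hx hy
    rw [mem_clauseVerts] at hx hy
    rcases hx with ⟨t, rfl⟩ | ⟨t, k, l, _, rfl⟩
    · rcases hy with ⟨t', h⟩ | ⟨t', k', l', _, h⟩
      · simp only [W.cl.injEq] at h
        exact hab h.2
      · simp at h
    · rcases hy with ⟨t', h⟩ | ⟨t', k', l', _, h⟩
      · simp at h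
      · simp only [W.oc.injEq] at h
        exact hab h.2.1
  · intro x hx hy
    rw [mem_litVerts] at hx
    obtain ⟨l, _, rfl⟩ := hx
    simp only [List.mem_flatMap, mem_clauseVerts] at hy
    obtain ⟨_, _, ⟨t, h⟩ | ⟨_, _, _, _, h⟩⟩ := hy <;> simp at h

/-- the reduction graph -/
def graph (φ : CNF) : FinGraph :=
  ⟨(verts φ).length,
    { Adj := fun a b => adj ((verts φ).get a) ((verts φ).get b)
      symm := ⟨fun _ _ h => adj_symm h⟩
      loopless := ⟨fun _ h => adj_irrefl _ h⟩ }⟩

theorem card_filter_get (vs : List W) (hnd : vs.Nodup) (P : W → Prop) [DecidablePred P] :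
    (vs.toFinset.filter P).card = {b : Fin vs.length | P (vs.get b)}.ncard := by
  classical
  have h1 : {b : Fin vs.length | P (vs.get b)} =
      ((Finset.univ.filter (fun b : Fin vs.length => P (vs.get b)) : Finset (Fin vs.length)) :
        Set (Fin vs.length)) := by
    ext b
    simp
  rw [h1, Set.ncard_coe_finset]
  have h2 : vs.toFinset.filter P =
      (Finset.univ.filter (fun b : Fin vs.length => P (vs.get b))).image vs.get := by
    ext x
    simp only [Finset.mem_filter, List.mem_toFinset, Finset.mem_image, Finset.mem_univ, true_and]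
    constructor
    · rintro ⟨hx, hP⟩
      obtain ⟨i, hi⟩ := List.mem_iff_get.1 hx
      exact ⟨i, by rw [hi]; exact hP, hi⟩
    · rintro ⟨i, hP, rfl⟩
      exact ⟨List.get_mem _ _, hP⟩
  rw [h2, Finset.card_image_of_injective _ (List.nodup_iff_injective_get.1 hnd)]

theorem exists_order {n : ℕ} (r : Fin n → ℕ) : ∃ l : List (Fin n), IsOrder l ∧
    ∀ a b, r a < r b → l.idxOf a < l.idxOf b := by
  let R : Fin n → Fin n → Prop := fun a b => r a ≤ r b
  have : DecidableRel R := fun a b => by unfold R; infer_instance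
  have : Std.Total R := ⟨fun a b => le_total _ _⟩
  have : IsTrans (Fin n) R := ⟨fun a b c h1 h2 => le_trans h1 h2⟩
  let l := (List.finRange n).insertionSort R
  have hs : l.Pairwise R := List.pairwise_insertionSort R _
  have hp : l.Perm (List.finRange n) := List.perm_insertionSort R _
  have hmem : ∀ v, v ∈ l := fun v => hp.mem_iff.2 (List.mem_finRange v)
  refine ⟨l, ⟨hp.nodup_iff.2 (List.nodup_finRange n), hmem⟩, ?_⟩
  intro a b hab
  by_contra hcon
  have hne : l.idxOf a ≠ l.idxOf b := by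
    intro h
    rw [List.idxOf_inj (hmem a)] at h
    rw [h] at hab
    omega
  have hlt : l.idxOf b < l.idxOf a := by omega
  have h1 := List.pairwise_iff_getElem.1 hs (l.idxOf b) (l.idxOf a)
    (List.idxOf_lt_length_iff.2 (hmem b)) (List.idxOf_lt_length_iff.2 (hmem a)) hlt
  rw [List.getElem_idxOf, List.getElem_idxOf] at h1
  simp only [R] at h1
  omega

theorem idxOf_map_val {n : ℕ} (l : List (Fin n)) (k : Fin n) :
    (l.map Fin.val).idxOf k.val = l.idxOf k := by
  induction l with
  | nil => rfl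
  | cons a l ih =>
    rw [List.map_cons, List.idxOf_cons, List.idxOf_cons, ih]
    congr 1
    by_cases h : a = k
    · simp [h]
    · have h2 : a.val ≠ k.val := fun e => h (Fin.ext e)
      simp [h, h2]

section

variable (φ : CNF)

theorem dMinus_eq (l : List (Fin (verts φ).length)) (pos : W → ℕ)
    (h : ∀ a b, adj ((verts φ).get a) ((verts φ).get b) →
      (l.idxOf a < l.idxOf b ↔ pos ((verts φ).get a) < pos ((verts φ).get b)))
    (a : Fin (verts φ).length) :
    dMinus (graph φ).2 l a = (dn (verts φ).toFinset pos ((verts φ).get a)).card := by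
  unfold dMinus dn
  rw [card_filter_get _ (nodup_verts φ)]
  congr 1
  ext b
  simp only [graph]
  constructor
  · rintro ⟨h1, h2⟩
    exact ⟨h1, (h b a (adj_symm h1)).1 h2⟩
  · rintro ⟨h1, h2⟩
    exact ⟨h1, (h b a (adj_symm h1)).2 h2⟩

theorem dPlus_eq (l : List (Fin (verts φ).length)) (pos : W → ℕ)
    (h : ∀ a b, adj ((verts φ).get a) ((verts φ).get b) →
      (l.idxOf a < l.idxOf b ↔ pos ((verts φ).get a) < pos ((verts φ).get b)))
    (a : Fin (verts φ).length) :
    dPlus (graph φ).2 l a = (up (verts φ).toFinset pos ((verts φ).get a)).card := by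
  unfold dPlus up
  rw [card_filter_get _ (nodup_verts φ)]
  congr 1
  ext b
  simp only [graph]
  constructor
  · rintro ⟨h1, h2⟩
    exact ⟨h1, (h a b h1).1 h2⟩
  · rintro ⟨h1, h2⟩
    exact ⟨h1, (h a b h1).2 h2⟩

theorem hM_of : ∀ (j : ℕ) (d : List (ℕ × Bool)) (k : ℕ) (l : ℕ × Bool), φ[j]? = some d → d[k]? = some l → l.1 < bd φ := by
  intro j d k l h1 h2
  apply lt_bd
  rw [List.mem_flatten]
  exact ⟨d, List.mem_of_getElem? h1, List.mem_of_getElem? h2⟩

/-- A satisfiable formula gives a graph with a Type-A order. -/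
theorem exists_typeA (h : Satisfiable φ) : ∃ l, IsTypeA (graph φ).2 l := by
  obtain ⟨rank, hr1, hr2⟩ := complete (φ := φ) (M := bd φ) (S := (verts φ).toFinset)
    (fun x => by rw [List.mem_toFinset, mem_verts]) (hM_of φ) h
  obtain ⟨l, hl, hl2⟩ := exists_order (fun a : Fin (verts φ).length => rank ((verts φ).get a))
  refine ⟨l, hl, fun v => ?_⟩
  have key := dMinus_eq φ l rank (by
    intro a b hab
    constructor
    · intro h1
      by_contra hcon
      have h2 := hr1 _ _ hab
      have h3 := hl2 b a (by omega)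
      omega
    · intro h1
      exact hl2 a b h1) v
  rw [key]
  exact hr2 _ (by rw [List.mem_toFinset]; exact List.get_mem _ _)

/-- A vertex as a number. -/
theorem exists_pos (l : List (Fin (verts φ).length)) :
    ∃ pos : W → ℕ, ∀ a, pos ((verts φ).get a) = l.idxOf a := by
  classical
  refine ⟨fun x => if h : x ∈ verts φ then
    l.idxOf ⟨(verts φ).idxOf x, List.idxOf_lt_length_iff.2 h⟩ else 0, fun a => ?_⟩
  have h1 : (verts φ).get a ∈ verts φ := List.get_mem _ _
  simp only [h1, dif_pos]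
  congr 1
  apply Fin.ext
  simp only
  exact (nodup_verts φ).idxOf_getElem a.1 a.2

theorem litVerts_getElem (M i : ℕ) (hi : i < M) :
    (litVerts M)[2 * i]? = some (.lit (i, true)) ∧
      (litVerts M)[2 * i + 1]? = some (.lit (i, false)) := by
  induction M with
  | zero => omega
  | succ M ih =>
    have hl : ∀ M, (litVerts M).length = 2 * M := by
      intro M
      simp [litVerts, List.length_flatMap, mul_comm]
    have e : litVerts (M + 1) = litVerts M ++ [W.lit (M, true), W.lit (M, false)] := by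
      simp [litVerts, List.range_succ]
    rw [e]
    rcases Nat.lt_succ_iff_lt_or_eq.1 hi with h | rfl
    · have h1 := ih h
      rw [List.getElem?_append_left (by rw [hl]; omega),
        List.getElem?_append_left (by rw [hl]; omega)]
      exact h1
    · rw [List.getElem?_append_right (by rw [hl]), List.getElem?_append_right (by rw [hl]; omega),
        hl]
      simp

theorem verts_lit {i : ℕ} (hi : i < bd φ) :
    (verts φ)[2 * i]? = some (.lit (i, true)) ∧
      (verts φ)[2 * i + 1]? = some (.lit (i, false)) := by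
  obtain ⟨h1, h2⟩ := litVerts_getElem (bd φ) i hi
  constructor
  · unfold verts
    rw [List.getElem?_append_left (List.getElem?_eq_some_iff.1 h1).1]
    exact h1
  · unfold verts
    rw [List.getElem?_append_left (List.getElem?_eq_some_iff.1 h2).1]
    exact h2

/-- A Type-B order of the graph satisfies the formula. -/
theorem sat_of_typeB (l : List (Fin (verts φ).length)) (h : IsTypeB (graph φ).2 l) :
    ∀ d ∈ φ, ∃ x ∈ d, decide ((l.map Fin.val).idxOf (2 * x.1 + 1) <
      (l.map Fin.val).idxOf (2 * x.1)) = x.2 := by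
  obtain ⟨pos, hpos⟩ := exists_pos φ l
  obtain ⟨⟨hnd, hmem⟩, hB⟩ := h
  have hadj : ∀ a b, adj ((verts φ).get a) ((verts φ).get b) →
      (l.idxOf a < l.idxOf b ↔ pos ((verts φ).get a) < pos ((verts φ).get b)) := by
    intro a b _
    rw [hpos, hpos]
  have h1 := sound (φ := φ) (M := bd φ) (S := (verts φ).toFinset) (pos := pos)
    (fun x => by rw [List.mem_toFinset, mem_verts]) (hM_of φ) (by
      intro x hx y hy hxy
      rw [List.mem_toFinset] at hx hy
      obtain ⟨a, rfl⟩ := List.mem_iff_get.1 hx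
      obtain ⟨b, rfl⟩ := List.mem_iff_get.1 hy
      rw [hpos, hpos] at hxy
      have hab : a = b := (List.idxOf_inj (hmem a)).1 hxy
      rw [hab]) (by
      intro x hx
      rw [List.mem_toFinset] at hx
      obtain ⟨a, rfl⟩ := List.mem_iff_get.1 hx
      have := hB a
      unfold condB
      rw [← dMinus_eq φ l pos hadj a, ← dPlus_eq φ l pos hadj a]
      exact this)
  intro d hd
  obtain ⟨x, hx, hx2⟩ := h1 d hd
  refine ⟨x, hx, ?_⟩
  have hlt : x.1 < bd φ := lt_bd (List.mem_flatten.2 ⟨d, hd, hx⟩)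
  obtain ⟨e1, e2⟩ := verts_lit φ hlt
  obtain ⟨k1, e1⟩ := List.getElem?_eq_some_iff.1 e1
  obtain ⟨k2, e2⟩ := List.getElem?_eq_some_iff.1 e2
  have hidx : ∀ (k : ℕ) (hk : k < (verts φ).length),
      (l.map Fin.val).idxOf k = l.idxOf ⟨k, hk⟩ := fun k hk => idxOf_map_val l ⟨k, hk⟩
  rw [hidx _ k1, hidx _ k2, ← hpos, ← hpos]
  simp only [List.get_eq_getElem, e1, e2]
  exact hx2

end

end Pool.Agent.W_MP_c8d28d_lc
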