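import Pool.Agent.PolyTime.Lists
import Pool.Agent.W_MP_c8d28d_lc.Graph

set_option autoImplicit false

namespace Pool.Agent.W_MP_c8d28d_lc

open Pool.Agent.PolyTime

/-- codes of vertices -/
abbrev V : Type := ℕ × ((ℕ × ℕ) × (ℕ × Bool))

/-- the code of a vertex -/
def code : W → V
  | .lit l => (0, ((0, 0), l))
  | .cl t j => (t.1 + 1, ((j, 0), (0, false)))
  | .oc t j k l => (t.1 + 5, ((j, k), l))

/-- equality of literals -/
def litEq (a b : ℕ × Bool) : Bool := (a.1 == b.1) && (a.2 == b.2)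

/-- adjacency on codes -/
def adjV (x y : V) : Bool :=
  ((x.1 == 0) && (y.1 == 0) && (x.2.2.1 == y.2.2.1) && !(x.2.2.2 == y.2.2.2)) ||
  ((x.1 == 0) && ((y.1 == 5) || (y.1 == 6)) && litEq x.2.2 y.2.2) ||
  ((y.1 == 0) && ((x.1 == 5) || (x.1 == 6)) && litEq y.2.2 x.2.2) ||
  ((x.1 == 1) && (y.1 == 5) && (x.2.1.1 == y.2.1.1)) ||
  ((x.1 == 5) && (y.1 == 1) && (y.2.1.1 == x.2.1.1)) ||
  (decide (0 < x.1) && decide (x.1 < 5) && decide (0 < y.1) && decide (y.1 < 5) &&
    !(x.1 == y.1) && (x.2.1.1 == y.2.1.1)) ||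
  (decide (4 < x.1) && decide (4 < y.1) && !(x.1 == y.1) &&
    (!(x.1 == 5) || (y.1 == 6)) && (!(y.1 == 5) || (x.1 == 6)) &&
    (x.2.1.1 == y.2.1.1) && (x.2.1.2 == y.2.1.2) && litEq x.2.2 y.2.2)

theorem litEq_iff (a b : ℕ × Bool) : litEq a b = true ↔ a = b := by
  obtain ⟨a1, a2⟩ := a
  obtain ⟨b1, b2⟩ := b
  simp [litEq]

theorem adjV_code (x y : W) : adjV (code x) (code y) = decide (adj x y) := by
  rw [Bool.eq_iff_iff, decide_eq_true_iff]
  cases x with
  | lit l =>
    cases y with
    | lit l' => simp [adjV, code, adj]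
    | cl t j =>
      simp only [adjV, code, adj]
      fin_cases t <;> simp
    | oc t j k l' =>
      simp only [adjV, code, adj]
      fin_cases t <;> simp [litEq_iff]
  | cl t j =>
    cases y with
    | lit l' =>
      simp only [adjV, code, adj]
      fin_cases t <;> simp
    | cl t' j' =>
      simp only [adjV, code, adj]
      fin_cases t <;> fin_cases t' <;> simp
    | oc t' j' k' l' =>
      simp only [adjV, code, adj]
      fin_cases t <;> fin_cases t' <;> simp
  | oc t j k l =>
    cases y with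
    | lit l' =>
      simp only [adjV, code, adj]
      fin_cases t <;> simp [litEq_iff]
    | cl t' j' =>
      simp only [adjV, code, adj]
      fin_cases t <;> fin_cases t' <;> simp
    | oc t' j' k' l' =>
      simp only [adjV, code, adj]
      fin_cases t <;> fin_cases t' <;> simp [litEq_iff, and_assoc]

/-- the codes of all vertices -/
def vertsV (φ : CNF) : List V :=
  (List.range (bd φ)).flatMap (fun i => [(0, ((0, 0), (i, true))), (0, ((0, 0), (i, false)))]) ++
  φ.zipIdx.flatMap (fun x => ([1, 2, 3, 4] : List ℕ).map (fun t => (t, ((x.2, 0), (0, false)))) ++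
    x.1.zipIdx.flatMap (fun y => ([5, 6, 7, 8, 9] : List ℕ).map (fun t => (t, ((x.2, y.2), y.1)))))

theorem vertsV_eq (φ : CNF) : vertsV φ = (verts φ).map code := by
  simp only [vertsV, verts, litVerts, clauseVerts, List.map_append, List.map_flatMap, List.map_map]
  rfl

/-- the adjacency matrix of the reduction graph -/
def matrix (φ : CNF) : List Bool :=
  (vertsV φ).flatMap (fun u => (vertsV φ).map (fun v => adjV u v))

theorem encGraph_graph (φ : CNF) : encGraph (graph φ) = matrix φ := by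
  unfold encGraph matrix
  rw [vertsV_eq, List.flatMap_map]
  simp only [List.map_map]
  conv_rhs => rw [← List.map_get_finRange (verts φ)]
  rw [List.flatMap_map]
  simp only [List.map_map]
  change List.flatMap _ (List.finRange (verts φ).length) = _
  congr 1
  funext a
  change List.map _ (List.finRange (verts φ).length) = _
  congr 1
  funext b
  have h := adjV_code ((verts φ).get a) ((verts φ).get b)
  exact (h.trans (decide_eq_decide.2 Iff.rfl)).symm

/-! ### polynomial time -/

section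

variable {γ : Type} [ToD γ]

theorem PF.natBeq {f g : γ → ℕ} (hf : PF f) (hg : PF g) : PF (fun c => f c == g c) :=
  (PF.natEq hf hg).cast (fun c => by
    congr 1)

theorem PF.litEq {f g : γ → ℕ × Bool} (hf : PF f) (hg : PF g) :
    PF (fun c => litEq (f c) (g c)) :=
  PF.and (PF.natBeq hf.fst hg.fst) (PF.boolEq hf.snd hg.snd)

theorem PF.adjV : PF (fun p : V × V => adjV p.1 p.2) := by
  have x : PF (fun p : V × V => p.1) := PF.fst'
  have y : PF (fun p : V × V => p.2) := PF.snd'
  unfold W_MP_c8d28d_lc.adjV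
  repeat' first
    | exact PF.litEq x.snd.snd y.snd.snd
    | exact x.fst
    | exact y.fst
    | exact x.snd.fst.fst
    | exact y.snd.fst.fst
    | exact x.snd.fst.snd
    | exact y.snd.fst.snd
    | exact x.snd.snd.fst
    | exact y.snd.snd.fst
    | exact x.snd.snd.snd
    | exact y.snd.snd.snd
    | exact PF.const _
    | apply PF.or
    | apply PF.and
    | apply PF.not
    | apply PF.natBeq
    | apply PF.lt
    | apply PF.boolEq

theorem PF.bd : PF bd := by
  have h1 : PF (fun φ : CNF => φ.flatten) := PF.flatten PF.id'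
  have h2 : PF (fun x : CNF × (ℕ × Bool) => List.range (x.2.1 + 1)) :=
    PF.range (PF.id'.snd.fst.succ)
  exact (PF.flatMap (g := fun (_ : CNF) (l : ℕ × Bool) => List.range (l.1 + 1)) h2 h1).length

theorem PF.vertsV : PF vertsV := by
  refine PF.append ?_ ?_
  · refine PF.flatMap (g := fun (_ : CNF) (i : ℕ) =>
      ([(0, ((0, 0), (i, true))), (0, ((0, 0), (i, false)))] : List V)) ?_ PF.bd.range
    have hi : PF (fun x : CNF × ℕ => x.2) := PF.snd'
    exact PF.cons ((PF.const 0).pair ((PF.const (0, 0)).pair (hi.pair (PF.const true))))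
      (PF.cons ((PF.const 0).pair ((PF.const (0, 0)).pair (hi.pair (PF.const false))))
        (PF.const []))
  · refine PF.flatMap (g := fun (_ : CNF) (x : List (ℕ × Bool) × ℕ) =>
      (([1, 2, 3, 4] : List ℕ).map (fun t => (t, ((x.2, 0), (0, false)))) ++
    x.1.zipIdx.flatMap (fun y => ([5, 6, 7, 8, 9] : List ℕ).map
      (fun t => (t, ((x.2, y.2), y.1)))) : List V)) ?_ PF.id'.zipIdx
    have hd : PF (fun x : CNF × (List (ℕ × Bool) × ℕ) => x.2.1) := PF.id'.snd.fst
    have hj : PF (fun x : CNF × (List (ℕ × Bool) × ℕ) => x.2.2) := PF.id'.snd.snd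
    refine PF.append ?_ ?_
    · refine PF.map (g := fun (x : CNF × (List (ℕ × Bool) × ℕ)) (t : ℕ) =>
        ((t, ((x.2.2, 0), (0, false))) : V)) ?_ (PF.const _)
      exact PF.pair PF.snd' (((hj.comp PF.fst').pair (PF.const 0)).pair (PF.const (0, false)))
    · refine PF.flatMap (g := fun (x : CNF × (List (ℕ × Bool) × ℕ)) (y : (ℕ × Bool) × ℕ) =>
        (([5, 6, 7, 8, 9] : List ℕ).map (fun t => (t, ((x.2.2, y.2), y.1))) : List V)) ?_
        hd.zipIdx
      refine PF.map (g := fun (z : (CNF × (List (ℕ × Bool) × ℕ)) × ((ℕ × Bool) × ℕ)) (t : ℕ) =>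
        ((t, ((z.1.2.2, z.2.2), z.2.1)) : V)) ?_ (PF.const _)
      have e1 : PF (fun w : ((CNF × (List (ℕ × Bool) × ℕ)) × ((ℕ × Bool) × ℕ)) × ℕ => w.1) :=
        PF.fst'
      exact PF.pair PF.snd' (((hj.comp e1.fst).pair e1.snd.snd).pair e1.snd.fst)

theorem PF.adjV3 : PF (fun y : (CNF × V) × V => W_MP_c8d28d_lc.adjV y.1.2 y.2) := by
  have h : PF (fun y : (CNF × V) × V => (y.1.2, y.2)) := PF.pair PF.id'.fst.snd PF.snd'
  have h2 := PF.comp (f := fun y : (CNF × V) × V => (y.1.2, y.2)) PF.adjV h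
  exact h2

theorem PF.vertsV2 : PF (fun x : CNF × V => W_MP_c8d28d_lc.vertsV x.1) := PF.vertsV.comp PF.fst'

theorem PF.matrix_row : PF (fun x : CNF × V =>
    (W_MP_c8d28d_lc.vertsV x.1).map (fun v => W_MP_c8d28d_lc.adjV x.2 v)) :=
  PF.map (g := fun (x : CNF × V) (v : V) => W_MP_c8d28d_lc.adjV x.2 v) PF.adjV3 PF.vertsV2

theorem PF.matrix : PF matrix :=
  PF.flatMap (g := fun (φ : CNF) (u : V) =>
    (W_MP_c8d28d_lc.vertsV φ).map (fun v => W_MP_c8d28d_lc.adjV u v)) PF.matrix_row PF.vertsV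

end

end Pool.Agent.W_MP_c8d28d_lc
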