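import Pool.Agent.W_MP_c8d28d_lc.Gadget

set_option autoImplicit false

namespace Pool.Agent.W_MP_c8d28d_lc

variable {φ : List (List (ℕ × Bool))} {M : ℕ} {S : Finset W}

theorem condA_of_card {pos : W → ℕ} {x : W} {T : Finset W} (h : dn S pos x = T)
    (hT : Odd T.card ∨ T.card = 0) : condA S pos x := by
  unfold condA
  rw [h]
  exact hT

theorem complete_cl (hS : ∀ x, x ∈ S ↔ Valid φ M x) (τ : ℕ → Bool) (sel : ℕ → ℕ)
    (hsel : ∀ (j : ℕ) (d : List (ℕ × Bool)), φ[j]? = some d → ∃ l, d[sel j]? = some l ∧ τ l.1 = l.2)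
    (t : Fin 4) (j : ℕ) (hx : W.cl t j ∈ S) : condA S (rk τ sel) (W.cl t j) := by
  have hj : j < φ.length := by
    rw [hS] at hx
    exact hx
  have hcl : ∀ t' : Fin 4, W.cl t' j ∈ S := fun t' => by rw [hS]; exact hj
  obtain ⟨l₀, hl₀, hτ⟩ := hsel j (φ[j]) (List.getElem?_eq_getElem hj)
  have hoc : ∀ (k : ℕ) (l : ℕ × Bool), W.oc 0 j k l ∈ S ↔ (φ[j])[k]? = some l := by
    intro k l
    rw [hS]
    simp [Valid, List.getElem?_eq_getElem hj]
  by_cases h0 : t = 0
  · subst h0
    refine condA_of_card (T := {W.cl 1 j, W.cl 2 j, W.oc 0 j (sel j) l₀}) ?_ ?_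
    · ext y
      simp only [dn, Finset.mem_filter, Finset.mem_insert, Finset.mem_singleton]
      constructor
      · rintro ⟨h1, h2, h3⟩
        cases y with
        | lit l => simp [adj] at h2
        | cl t' j' =>
          simp only [adj] at h2
          obtain ⟨rfl, h2⟩ := h2
          simp only [rk] at h3
          clear h1
          revert h2 h3
          revert t'
          simp only [W.cl.injEq, and_true, reduceCtorEq, or_false]
          decide
        | oc t' j' k l =>
          simp only [adj] at h2
          obtain ⟨-, rfl, rfl⟩ := h2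
          simp only [rk] at h3
          by_cases hk : k = sel j
          · subst hk
            rw [hoc, hl₀] at h1
            simp only [Option.some.injEq] at h1
            subst h1
            simp
          · simp [hk] at h3
      · rintro (rfl | rfl | rfl)
        · exact ⟨hcl _, by simp [adj], by simp [rk]⟩
        · exact ⟨hcl _, by simp [adj], by simp [rk]⟩
        · exact ⟨by rw [hoc]; exact hl₀, by simp [adj], by simp [rk]⟩
    · left
      have : ({W.cl 1 j, W.cl 2 j, W.oc 0 j (sel j) l₀} : Finset W).card = 3 := by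
        rw [Finset.card_insert_of_notMem, Finset.card_insert_of_notMem, Finset.card_singleton]
        · simp
        · simp
      rw [this]
      decide
  · have r3 : ∀ t' : Fin 4, rk τ sel (W.cl t' j) = ![5, 1, 2, 10] t' := by
      intro t'
      simp only [rk]
      revert t'
      decide
    have key2 : dn S (rk τ sel) (W.cl t j) =
        (Finset.univ.filter (fun t' : Fin 4 => t ≠ t' ∧
        (![5, 1, 2, 10] : Fin 4 → ℕ) t' < (![5, 1, 2, 10] : Fin 4 → ℕ) t)).image
          (fun t' => W.cl t' j) := by
      ext y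
      simp only [dn, Finset.mem_filter, Finset.mem_image, Finset.mem_univ, true_and]
      constructor
      · rintro ⟨h1, h2, h3⟩
        cases y with
        | lit l => simp [adj] at h2
        | cl t' j' =>
          simp only [adj] at h2
          obtain ⟨rfl, h2⟩ := h2
          rw [r3, r3] at h3
          exact ⟨t', ⟨h2, h3⟩, rfl⟩
        | oc t' j' k l =>
          simp only [adj] at h2
          exact absurd h2.1 h0
      · rintro ⟨t', ⟨h1, h2⟩, rfl⟩
        refine ⟨hcl _, ⟨rfl, h1⟩, ?_⟩
        rw [r3, r3]
        exact h2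
    refine condA_of_card key2 ?_
    rw [Finset.card_image_of_injective]
    · clear key2 hx
      revert h0
      revert t
      decide
    · intro a b h
      simpa using h

theorem complete_oc (hS : ∀ x, x ∈ S ↔ Valid φ M x) (τ : ℕ → Bool) (sel : ℕ → ℕ)
    (hM : ∀ (j : ℕ) (d : List (ℕ × Bool)) (k : ℕ) (l : ℕ × Bool),
      φ[j]? = some d → d[k]? = some l → l.1 < M)
    (hsel : ∀ (j : ℕ) (d : List (ℕ × Bool)), φ[j]? = some d → ∃ l, d[sel j]? = some l ∧ τ l.1 = l.2)
    (t : Fin 5) (j k : ℕ) (l : ℕ × Bool) (hx : W.oc t j k l ∈ S) :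
    condA S (rk τ sel) (W.oc t j k l) := by
  obtain ⟨d, hd, hk⟩ : ∃ d, φ[j]? = some d ∧ d[k]? = some l := by
    rw [hS] at hx
    exact hx
  have hj : j < φ.length := by
    rw [List.getElem?_eq_some_iff] at hd
    exact hd.1
  have hoc : ∀ t' : Fin 5, W.oc t' j k l ∈ S := fun t' => by rw [hS]; exact ⟨d, hd, hk⟩
  have hlit : W.lit l ∈ S := by
    rw [hS]
    exact hM j d k l hd hk
  have hcl : ∀ t' : Fin 4, W.cl t' j ∈ S := fun t' => by rw [hS]; exact hj
  have hselτ : k = sel j → τ l.1 = l.2 := by
    intro h
    obtain ⟨l', h1, h2⟩ := hsel j d hd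
    rw [← h, hk] at h1
    simp only [Option.some.injEq] at h1
    rw [h1]
    exact h2
  have key : ∀ y, y ∈ dn S (rk τ sel) (W.oc t j k l) ↔
      ((t = 0 ∨ t = 1) ∧ rk τ sel (W.lit l) < rk τ sel (W.oc t j k l) ∧ y = W.lit l) ∨
      (t = 0 ∧ rk τ sel (W.cl 0 j) < rk τ sel (W.oc t j k l) ∧ y = W.cl 0 j) ∨
      (∃ t' : Fin 5, (t ≠ t' ∧ (t = 0 → t' = 1) ∧ (t' = 0 → t = 1)) ∧
        rk τ sel (W.oc t' j k l) < rk τ sel (W.oc t j k l) ∧ y = W.oc t' j k l) := by
    intro y
    simp only [dn, Finset.mem_filter]
    constructor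
    · rintro ⟨h1, h2, h3⟩
      cases y with
      | lit l' =>
        simp only [adj] at h2
        obtain ⟨h2, rfl⟩ := h2
        exact Or.inl ⟨h2, h3, rfl⟩
      | cl t' j' =>
        simp only [adj] at h2
        obtain ⟨rfl, rfl, rfl⟩ := h2
        exact Or.inr (Or.inl ⟨rfl, h3, rfl⟩)
      | oc t' j' k' l' =>
        simp only [adj] at h2
        obtain ⟨⟨rfl, rfl, rfl⟩, h2⟩ := h2
        exact Or.inr (Or.inr ⟨t', h2, h3, rfl⟩)
    · rintro (⟨h1, h2, rfl⟩ | ⟨h1, h2, rfl⟩ | ⟨t', h1, h2, rfl⟩)
      · exact ⟨hlit, ⟨h1, rfl⟩, h2⟩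
      · exact ⟨hcl _, ⟨rfl, h1, rfl⟩, h2⟩
      · exact ⟨hoc _, ⟨⟨rfl, rfl, rfl⟩, h1⟩, h2⟩
  by_cases hs : k = sel j
  · have hτ := hselτ hs
    have r1 : rk τ sel (W.lit l) = 4 := by simp [rk, hτ]
    have r2 : rk τ sel (W.cl 0 j) = 5 := by simp [rk]
    have r3 : ∀ t' : Fin 5, rk τ sel (W.oc t' j k l) = ![1, 3, 1, 2, 10] t' := by
      intro t'
      simp only [rk, hs, if_true]
      revert t'
      decide
    have key2 : dn S (rk τ sel) (W.oc t j k l) =
        (Finset.univ.filter (fun t' : Fin 5 => (t ≠ t' ∧ (t = 0 → t' = 1) ∧ (t' = 0 → t = 1)) ∧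
          (![1, 3, 1, 2, 10] : Fin 5 → ℕ) t' < (![1, 3, 1, 2, 10] : Fin 5 → ℕ) t)).image
          (fun t' => W.oc t' j k l) := by
      ext y
      rw [key, r1, r2]
      simp only [r3, Finset.mem_image, Finset.mem_filter, Finset.mem_univ, true_and]
      constructor
      · rintro (⟨h1, h2, rfl⟩ | ⟨h1, h2, rfl⟩ | ⟨t', h1, h2, rfl⟩)
        · exfalso
          rcases h1 with rfl | rfl
          · revert h2; decide
          · revert h2; decide
        · exfalso
          subst h1
          revert h2
          decide
        · exact ⟨t', ⟨h1, h2⟩, rfl⟩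
      · rintro ⟨t', ⟨h1, h2⟩, rfl⟩
        exact Or.inr (Or.inr ⟨t', h1, h2, rfl⟩)
    refine condA_of_card key2 ?_
    rw [Finset.card_image_of_injective]
    · clear key key2 hx
      revert t
      decide
    · intro a b h
      simpa using h
  · have r1 : rk τ sel (W.lit l) < 6 := by simp only [rk]; split <;> omega
    have r2 : rk τ sel (W.cl 0 j) = 5 := by simp [rk]
    have r3 : ∀ t' : Fin 5, rk τ sel (W.oc t' j k l) = ![7, 6, 1, 2, 10] t' := by
      intro t'
      simp only [rk, hs, if_false]
      revert t'
      decide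
    by_cases ht0 : t = 0
    · subst ht0
      refine condA_of_card (T := {W.lit l, W.cl 0 j, W.oc 1 j k l}) ?_ ?_
      · ext y
        rw [key, r2]
        simp only [r3, Finset.mem_insert, Finset.mem_singleton]
        constructor
        · rintro (⟨h1, h2, rfl⟩ | ⟨h1, h2, rfl⟩ | ⟨t', ⟨h0, h1, h1'⟩, h2, rfl⟩)
          · simp
          · simp
          · have := h1 trivial
            subst this
            simp
        · rintro (rfl | rfl | rfl)
          · exact Or.inl ⟨by simp, lt_of_lt_of_le r1 (by decide), rfl⟩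
          · exact Or.inr (Or.inl ⟨by simp, by decide, rfl⟩)
          · exact Or.inr (Or.inr ⟨1, by simp, by decide, rfl⟩)
      · left
        have : ({W.lit l, W.cl 0 j, W.oc 1 j k l} : Finset W).card = 3 := by
          rw [Finset.card_insert_of_notMem, Finset.card_insert_of_notMem, Finset.card_singleton]
          · simp
          · simp
        rw [this]
        decide
    · by_cases ht1 : t = 1
      · subst ht1
        refine condA_of_card (T := {W.lit l, W.oc 2 j k l, W.oc 3 j k l}) ?_ ?_
        · ext y
          rw [key, r2]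
          simp only [r3, Finset.mem_insert, Finset.mem_singleton]
          constructor
          · rintro (⟨h1, h2, rfl⟩ | ⟨h1, h2, rfl⟩ | ⟨t', ⟨h0, h1, h1'⟩, h2, rfl⟩)
            · simp
            · exact absurd h1 (by decide)
            · revert h0 h1 h1' h2
              clear key hx
              simp only [reduceCtorEq, W.oc.injEq, and_true, false_or]
              revert t'
              decide
          · rintro (rfl | rfl | rfl)
            · exact Or.inl ⟨by simp, lt_of_lt_of_le r1 (by decide), rfl⟩
            · exact Or.inr (Or.inr ⟨2, by simp, by decide, rfl⟩)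
            · exact Or.inr (Or.inr ⟨3, by simp, by decide, rfl⟩)
        · left
          have : ({W.lit l, W.oc 2 j k l, W.oc 3 j k l} : Finset W).card = 3 := by
            rw [Finset.card_insert_of_notMem, Finset.card_insert_of_notMem, Finset.card_singleton]
            · simp
            · simp
          rw [this]
          decide
      · have key2 : dn S (rk τ sel) (W.oc t j k l) =
            (Finset.univ.filter (fun t' : Fin 5 => (t ≠ t' ∧ (t = 0 → t' = 1) ∧
              (t' = 0 → t = 1)) ∧ (![7, 6, 1, 2, 10] : Fin 5 → ℕ) t' <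
              (![7, 6, 1, 2, 10] : Fin 5 → ℕ) t)).image
              (fun t' => W.oc t' j k l) := by
          ext y
          rw [key, r2]
          simp only [r3, Finset.mem_image, Finset.mem_filter, Finset.mem_univ, true_and]
          constructor
          · rintro (⟨h1, h2, rfl⟩ | ⟨h1, h2, rfl⟩ | ⟨t', h1, h2, rfl⟩)
            · tauto
            · tauto
            · exact ⟨t', ⟨h1, h2⟩, rfl⟩
          · rintro ⟨t', ⟨h1, h2⟩, rfl⟩
            exact Or.inr (Or.inr ⟨t', h1, h2, rfl⟩)
        refine condA_of_card key2 ?_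
        rw [Finset.card_image_of_injective]
        · clear key key2 hx
          revert ht0 ht1
          revert t
          decide
        · intro a b h
          simpa using h

theorem complete_lit (hS : ∀ x, x ∈ S ↔ Valid φ M x) (τ : ℕ → Bool) (sel : ℕ → ℕ)
    (l : ℕ × Bool) (hx : W.lit l ∈ S) :
    condA S (rk τ sel) (W.lit l) := by
  classical
  have hl : l.1 < M := by
    rw [hS] at hx
    exact hx
  by_cases hτ : τ l.1 = l.2
  · set E : Finset W := S.filter (fun y => ∃ (t : Fin 5) (j : ℕ), (t = 0 ∨ t = 1) ∧
      y = W.oc t j (sel j) l) with hE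
    have hE2 : Even E.card := by
      refine even_card_of_invol E swp ?_ ?_ ?_
      · intro a ha
        rw [hE, Finset.mem_filter] at ha ⊢
        obtain ⟨h1, t, j, h2, rfl⟩ := ha
        rw [hS] at h1
        refine ⟨by rw [hS]; exact h1, if t = 0 then 1 else if t = 1 then 0 else t, j, ?_, rfl⟩
        clear h1
        revert h2
        revert t
        decide
      · intro a ha
        rw [hE, Finset.mem_filter] at ha
        obtain ⟨h1, t, j, h2, rfl⟩ := ha
        simp only [swp, W.oc.injEq, and_true]
        clear h1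
        revert h2
        revert t
        decide
      · intro a ha
        rw [hE, Finset.mem_filter] at ha
        obtain ⟨h1, t, j, h2, rfl⟩ := ha
        simp only [swp, ne_eq, W.oc.injEq, and_true]
        clear h1
        revert h2
        revert t
        decide
    have hp : W.lit (l.1, !l.2) ∉ E := by
      rw [hE, Finset.mem_filter]
      rintro ⟨-, t, j, -, h⟩
      cases h
    refine condA_of_card (T := insert (W.lit (l.1, !l.2)) E) ?_ ?_
    · ext y
      simp only [dn, Finset.mem_filter, Finset.mem_insert, hE]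
      constructor
      · rintro ⟨h1, h2, h3⟩
        cases y with
        | lit l' =>
          left
          simp only [adj] at h2
          obtain ⟨h2, h4⟩ := h2
          congr 1
          ext
          · exact h2.symm
          · simp only
            cases h5 : l.2 <;> cases h6 : l'.2 <;> simp_all
        | cl t' j' => simp [adj] at h2
        | oc t' j' k' l' =>
          right
          simp only [adj] at h2
          obtain ⟨h2, rfl⟩ := h2
          refine ⟨h1, t', j', h2, ?_⟩
          have : k' = sel j' := by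
            by_contra hne
            simp only [rk, hτ, if_true, hne, if_false] at h3
            rcases h2 with rfl | rfl
            · revert h3; decide
            · revert h3; decide
          rw [this]
      · rintro (rfl | ⟨h1, t, j, h2, rfl⟩)
        · refine ⟨by rw [hS]; exact hl, ⟨rfl, by simp⟩, ?_⟩
          simp only [rk, hτ, if_true]
          cases h : l.2 <;> simp
        · refine ⟨h1, ⟨h2, rfl⟩, ?_⟩
          simp only [rk, hτ, if_true]
          rcases h2 with rfl | rfl
          · decide
          · decide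
    · left
      rw [Finset.card_insert_of_notMem hp]
      exact hE2.add_one
  · refine condA_of_card (T := ∅) ?_ (Or.inr rfl)
    rw [Finset.eq_empty_iff_forall_notMem]
    intro y hy
    simp only [dn, Finset.mem_filter, rk, hτ, if_false] at hy
    omega

theorem complete (hS : ∀ x, x ∈ S ↔ Valid φ M x)
    (hM : ∀ (j : ℕ) (d : List (ℕ × Bool)) (k : ℕ) (l : ℕ × Bool),
      φ[j]? = some d → d[k]? = some l → l.1 < M) (hsat : Sat φ) :
    ∃ rank : W → ℕ, (∀ x y, adj x y → rank x ≠ rank y) ∧ ∀ x ∈ S, condA S rank x := by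
  obtain ⟨τ, hτ⟩ := hsat
  have h1 : ∀ j : ℕ, ∃ k : ℕ, ∀ d : List (ℕ × Bool), φ[j]? = some d →
      ∃ l, d[k]? = some l ∧ τ l.1 = l.2 := by
    intro j
    by_cases hj : j < φ.length
    · obtain ⟨l, hl, h2⟩ := hτ (φ[j]) (List.getElem_mem hj)
      obtain ⟨k, hk⟩ := List.mem_iff_getElem?.1 hl
      refine ⟨k, fun d hd => ⟨l, ?_, h2⟩⟩
      rw [List.getElem?_eq_getElem hj] at hd
      simp only [Option.some.injEq] at hd
      rw [← hd]
      exact hk
    · refine ⟨0, fun d hd => ?_⟩
      rw [List.getElem?_eq_some_iff] at hd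
      exact absurd hd.1 hj
  choose sel hsel using h1
  refine ⟨rk τ sel, fun x y h => rk_ne τ sel h, fun x hx => ?_⟩
  cases x with
  | lit l => exact complete_lit hS τ sel l hx
  | cl t j => exact complete_cl hS τ sel hsel t j hx
  | oc t j k l => exact complete_oc hS τ sel hM hsel t j k l hx

end Pool.Agent.W_MP_c8d28d_lc
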