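import Mathlib

set_option autoImplicit false

namespace Pool.Agent.W_MP_c8d28d_lc

/-- Vertices of the reduction graph: literal vertices, clause vertices (with their three
companions) and occurrence vertices (`oc 0` is the vertex `a`, `oc 1` is the vertex `b`,
`oc 2, oc 3, oc 4` are the companions of `b`). -/
inductive W
  | lit (l : ℕ × Bool)
  | cl (t : Fin 4) (j : ℕ)
  | oc (t : Fin 5) (j k : ℕ) (l : ℕ × Bool)
  deriving DecidableEq

/-- Adjacency in the reduction graph. -/
def adj : W → W → Prop
  | .lit l, .lit l' => l.1 = l'.1 ∧ l.2 ≠ l'.2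
  | .lit l, .oc t _ _ l' => (t = 0 ∨ t = 1) ∧ l = l'
  | .oc t _ _ l', .lit l => (t = 0 ∨ t = 1) ∧ l = l'
  | .cl t j, .cl t' j' => j = j' ∧ t ≠ t'
  | .cl t j, .oc t' j' _ _ => t = 0 ∧ t' = 0 ∧ j = j'
  | .oc t' j' _ _, .cl t j => t = 0 ∧ t' = 0 ∧ j = j'
  | .oc t j k l, .oc t' j' k' l' => (j = j' ∧ k = k' ∧ l = l') ∧ t ≠ t' ∧ (t = 0 → t' = 1) ∧
      (t' = 0 → t = 1)
  | _, _ => False

instance : DecidableRel adj := fun x y => by
  unfold adj
  split <;> infer_instance

theorem adj_symm {x y : W} (h : adj x y) : adj y x := by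
  cases x <;> cases y <;> simp only [adj] at h ⊢
  · exact ⟨h.1.symm, fun e => h.2 e.symm⟩
  · exact h
  · exact ⟨h.1.symm, fun e => h.2 e.symm⟩
  · exact h
  · exact h
  · exact h
  · obtain ⟨⟨h1, h2, h3⟩, h4, h5, h6⟩ := h
    exact ⟨⟨h1.symm, h2.symm, h3.symm⟩, fun e => h4 e.symm, h6, h5⟩

theorem adj_irrefl (x : W) : ¬ adj x x := by
  cases x <;> simp [adj]

/-- Valid vertices for the formula `φ` (with literal vertices for the variables below `M`). -/
def Valid (φ : List (List (ℕ × Bool))) (M : ℕ) : W → Prop
  | .lit l => l.1 < M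
  | .cl _ j => j < φ.length
  | .oc _ j k l => ∃ d, φ[j]? = some d ∧ d[k]? = some l

/-- Satisfiability of a formula in conjunctive normal form. -/
def Sat (φ : List (List (ℕ × Bool))) : Prop :=
  ∃ τ : ℕ → Bool, ∀ c ∈ φ, ∃ l ∈ c, τ l.1 = l.2

/-- The neighbours of `x` in `S` that come before `x`. -/
def dn (S : Finset W) (pos : W → ℕ) (x : W) : Finset W :=
  S.filter (fun y => adj x y ∧ pos y < pos x)

/-- The neighbours of `x` in `S` that come after `x`. -/
def up (S : Finset W) (pos : W → ℕ) (x : W) : Finset W :=
  S.filter (fun y => adj x y ∧ pos x < pos y)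

/-- The local Type-A condition. -/
def condA (S : Finset W) (pos : W → ℕ) (x : W) : Prop :=
  Odd (dn S pos x).card ∨ (dn S pos x).card = 0

/-- The local Type-B condition. -/
def condB (S : Finset W) (pos : W → ℕ) (x : W) : Prop :=
  (Odd (dn S pos x).card ∨ (dn S pos x).card = 0) ∨
    (Even (dn S pos x).card ∧ (up S pos x).card = 0)

/-- A finite set of even cardinality: closed under a fixed point free involution. -/
theorem even_card_of_invol {α : Type} [DecidableEq α] (s : Finset α) (g : α → α)
    (h1 : ∀ a ∈ s, g a ∈ s) (h2 : ∀ a ∈ s, g (g a) = a) (h3 : ∀ a ∈ s, g a ≠ a) :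
    Even s.card := by
  have : (∑ _x ∈ s, (1 : ZMod 2)) = 0 :=
    Finset.sum_involution (fun a _ => g a) (fun a _ => by decide)
      (fun a ha _ => h3 a ha) (fun a ha => h1 a ha) (fun a ha => h2 a ha)
  rw [Finset.sum_const, nsmul_eq_mul, mul_one] at this
  rw [← ZMod.natCast_eq_zero_iff_even]
  exact this

/-- swap the two vertices `a`, `b` of an occurrence -/
def swp : W → W
  | .oc t j k l => .oc (if t = 0 then 1 else if t = 1 then 0 else t) j k l
  | x => x

section Complete

variable (φ : List (List (ℕ × Bool))) (M : ℕ) (S : Finset W)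

/-- The rank function of the Type-A order built from a satisfying assignment. -/
def rk (τ : ℕ → Bool) (sel : ℕ → ℕ) : W → ℕ
  | .lit l => if τ l.1 = l.2 then 4 else 0
  | .cl t _ => if t = 0 then 5 else if t = 1 then 1 else if t = 2 then 2 else 10
  | .oc t j k _ => if t = 0 then (if k = sel j then 1 else 7)
      else if t = 1 then (if k = sel j then 3 else 6)
      else if t = 2 then 1 else if t = 3 then 2 else 10

theorem rk_ne (τ : ℕ → Bool) (sel : ℕ → ℕ) {x y : W} (h : adj x y) :
    rk τ sel x ≠ rk τ sel y := by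
  cases x with
  | lit l =>
    cases y with
    | lit l' =>
      simp only [adj] at h
      simp only [rk]
      obtain ⟨h1, h2⟩ := h
      rw [← h1]
      cases hh : τ l.1 <;> cases h3 : l.2 <;> cases h4 : l'.2 <;> simp_all
    | cl t j => simp [adj] at h
    | oc t j k l' =>
      simp only [adj] at h
      simp only [rk]
      obtain ⟨h1, h2⟩ := h
      rcases h1 with rfl | rfl
      · by_cases h3 : k = sel j <;> simp [h3] <;> split <;> omega
      · by_cases h3 : k = sel j <;> simp [h3] <;> split <;> omega
  | cl t j =>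
    cases y with
    | lit l' => simp [adj] at h
    | cl t' j' =>
      simp only [adj] at h
      simp only [rk]
      obtain ⟨h1, h2⟩ := h
      revert h2
      revert t t'
      decide
    | oc t' j' k l' =>
      simp only [adj] at h
      simp only [rk]
      obtain ⟨rfl, rfl, rfl⟩ := h
      by_cases h3 : k = sel j <;> simp [h3]
  | oc t j k l =>
    cases y with
    | lit l' =>
      simp only [adj] at h
      simp only [rk]
      obtain ⟨h1, h2⟩ := h
      rcases h1 with rfl | rfl
      · by_cases h3 : k = sel j <;> simp [h3] <;> split <;> omega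
      · by_cases h3 : k = sel j <;> simp [h3] <;> split <;> omega
    | cl t' j' =>
      simp only [adj] at h
      simp only [rk]
      obtain ⟨rfl, rfl, rfl⟩ := h
      by_cases h3 : k = sel j' <;> simp [h3]
    | oc t' j' k' l' =>
      simp only [adj] at h
      simp only [rk]
      obtain ⟨⟨rfl, rfl, rfl⟩, h4, h5, h6⟩ := h
      by_cases h3 : k = sel j
      · simp only [h3, if_true]
        revert t t'
        decide
      · simp only [h3, if_false]
        revert t t'
        decide

end Complete

end Pool.Agent.W_MP_c8d28d_lc
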