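import Pool.Agent.PolyTime.Lists
import Pool.Agent.W_MP_c8d28d_lc.Defs

set_option autoImplicit false

namespace Pool.Agent.W_MP_c8d28d_lc

open Pool.Agent.PolyTime

/-- tokens as pairs of bits -/
def tokB : Tok → Bool × Bool
  | .one => (false, false)
  | .stop => (true, true)
  | .pos => (false, true)
  | .neg => (true, false)

/-- the state of the parser of formulas -/
abbrev PSt : Type := ℕ × (List (ℕ × Bool) × CNF)

/-- one step of the parser of formulas -/
def pStep (s : PSt) (t : Bool × Bool) : PSt :=
  if t.1 then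
    if t.2 then (0, ([], s.2.1.reverse :: s.2.2)) else (0, ((s.1, false) :: s.2.1, s.2.2))
  else
    if t.2 then (0, ((s.1, true) :: s.2.1, s.2.2)) else (s.1 + 1, s.2)

/-- parse a formula -/
def parseCNF (w : List (Bool × Bool)) : CNF := (w.foldl pStep (0, ([], []))).2.2.reverse

theorem parse_ones (n k : ℕ) (r : List (ℕ × Bool) × CNF) :
    ((List.replicate n Tok.one).map tokB).foldl pStep (k, r) = (k + n, r) := by
  induction n generalizing k with
  | zero => rfl
  | succ n ih =>
    rw [List.replicate_succ, List.map_cons, List.foldl_cons]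
    have : pStep (k, r) (tokB Tok.one) = (k + 1, r) := rfl
    rw [this, ih]
    congr 1
    omega

theorem parse_lit (l : ℕ × Bool) (c : List (ℕ × Bool)) (acc : CNF) :
    ((encLit l).map tokB).foldl pStep (0, (c, acc)) = (0, (l :: c, acc)) := by
  obtain ⟨i, b⟩ := l
  unfold encLit
  rw [List.map_append, List.foldl_append]
  simp only
  rw [parse_ones]
  cases b
  · simp [tokB, pStep]
  · simp [tokB, pStep]

theorem parse_clause (c : List (ℕ × Bool)) : ∀ (c' : List (ℕ × Bool)) (acc : CNF),
    ((c.flatMap encLit).map tokB).foldl pStep (0, (c', acc)) = (0, (c.reverse ++ c', acc)) := by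
  induction c with
  | nil => intro c' acc; rfl
  | cons l c ih =>
    intro c' acc
    rw [List.flatMap_cons, List.map_append, List.foldl_append, parse_lit, ih]
    simp

theorem parse_aux (φ : CNF) : ∀ (acc : CNF),
    ((encCNF φ).map tokB).foldl pStep (0, ([], acc)) = (0, ([], φ.reverse ++ acc)) := by
  induction φ with
  | nil => intro acc; rfl
  | cons c φ ih =>
    intro acc
    have e : encCNF (c :: φ) = (c.flatMap encLit ++ [Tok.stop]) ++ encCNF φ := rfl
    rw [e, List.map_append, List.map_append, List.foldl_append, List.foldl_append, parse_clause]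
    have e2 : ([Tok.stop].map tokB).foldl pStep (0, (c.reverse ++ [], acc)) =
        (0, ([], c :: acc)) := by
      simp [tokB, pStep]
    rw [e2, ih]
    simp

theorem parseCNF_enc (φ : CNF) : parseCNF ((encCNF φ).map tokB) = φ := by
  unfold parseCNF
  rw [parse_aux]
  simp

/-- one step of the parser of lists of numbers -/
def nStep (s : ℕ × List ℕ) (t : Bool) : ℕ × List ℕ :=
  if t then (s.1 + 1, s.2) else (0, s.1 :: s.2)

/-- parse a list of numbers -/
def parseNats (w : List Bool) : List ℕ := (w.foldl nStep (0, [])).2.reverse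

theorem nparse_ones (n k : ℕ) (r : List ℕ) :
    (List.replicate n true).foldl nStep (k, r) = (k + n, r) := by
  induction n generalizing k with
  | zero => rfl
  | succ n ih =>
    rw [List.replicate_succ, List.foldl_cons]
    have : nStep (k, r) true = (k + 1, r) := rfl
    rw [this, ih]
    congr 1
    omega

theorem nparse_aux (l : List ℕ) : ∀ acc : List ℕ,
    (encOrder l).foldl nStep (0, acc) = (0, l.reverse ++ acc) := by
  induction l with
  | nil => intro acc; rfl
  | cons a l ih =>
    intro acc
    have e : encOrder (a :: l) = (List.replicate a true ++ [false]) ++ encOrder l := rfl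
    rw [e, List.foldl_append, List.foldl_append, nparse_ones]
    have e2 : [false].foldl nStep (0 + a, acc) = (0, a :: acc) := by
      simp [nStep]
    rw [e2, ih]
    simp

theorem parseNats_enc (l : List ℕ) : parseNats (encOrder l) = l := by
  unfold parseNats
  rw [nparse_aux]
  simp

/-- Evaluate the formula at the assignment read off from the order `o`. -/
def check (φ : CNF) (o : List ℕ) : Bool :=
  φ.all (fun d => d.any (fun x => (decide (o.idxOf (2 * x.1 + 1) < o.idxOf (2 * x.1))) == x.2))

theorem check_sat {φ : CNF} {o : List ℕ} (h : check φ o = true) : Satisfiable φ := by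
  refine ⟨fun i => decide (o.idxOf (2 * i + 1) < o.idxOf (2 * i)), fun c hc => ?_⟩
  simp only [check, List.all_eq_true, List.any_eq_true] at h
  obtain ⟨l, hl, h2⟩ := h c hc
  exact ⟨l, hl, by simpa using h2⟩

theorem check_of {φ : CNF} {o : List ℕ} (h : ∀ d ∈ φ, ∃ x ∈ d,
    decide (o.idxOf (2 * x.1 + 1) < o.idxOf (2 * x.1)) = x.2) : check φ o = true := by
  simp only [check, List.all_eq_true, List.any_eq_true]
  intro d hd
  obtain ⟨x, hx, h2⟩ := h d hd
  exact ⟨x, hx, by simpa using h2⟩

/-! ### polynomial time -/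

section

variable {γ : Type} [ToD γ]

theorem PF.pStep : PF (fun x : PSt × (Bool × Bool) => pStep x.1 x.2) := by
  have s : PF (fun x : PSt × (Bool × Bool) => x.1) := PF.fst'
  have t : PF (fun x : PSt × (Bool × Bool) => x.2) := PF.snd'
  unfold W_MP_c8d28d_lc.pStep
  refine PF.ite t.fst (PF.ite t.snd ?_ ?_) (PF.ite t.snd ?_ ?_)
  · exact (PF.const 0).pair ((PF.const []).pair (s.snd.fst.reverse.cons s.snd.snd))
  · exact (PF.const 0).pair (((s.fst.pair (PF.const false)).cons s.snd.fst).pair s.snd.snd)
  · exact (PF.const 0).pair (((s.fst.pair (PF.const true)).cons s.snd.fst).pair s.snd.snd)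
  · exact s.fst.succ.pair s.snd

theorem sz_pStep (s : PSt) (t : Bool × Bool) : sz (pStep s t) ≤ sz s + 10 := by
  obtain ⟨k, c, acc⟩ := s
  obtain ⟨t1, t2⟩ := t
  cases t1 <;> cases t2 <;> simp [pStep, sz_reverse] <;> omega

theorem sz_foldl_pStep (w : List (Bool × Bool)) (s : PSt) :
    sz (w.foldl pStep s) ≤ sz s + 10 * w.length := by
  induction w generalizing s with
  | nil => simp
  | cons t w ih =>
    rw [List.foldl_cons, List.length_cons]
    have h1 := ih (pStep s t)
    have h2 := sz_pStep s t
    omega

theorem PF.parseCNF : PF parseCNF := by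
  have h : PF (fun w : List (Bool × Bool) =>
      w.foldl W_MP_c8d28d_lc.pStep ((0, ([], [])) : PSt)) := by
    refine PF.foldl' (γ := List (Bool × Bool)) (f := fun _ s t => W_MP_c8d28d_lc.pStep s t) ?_
      (PF.const _) PF.id' (10 * Polynomial.X + 10) ?_
    · exact PF.pStep.comp (PF.id'.fst.snd.pair PF.id'.snd)
    · intro w l' hl'
      have h1 := sz_foldl_pStep l' ((0, ([], [])) : PSt)
      have h2 := (length_le_sz l').trans (sz_prefix hl')
      have h3 : sz ((0, ([], [])) : PSt) = 5 := by simp
      simp only [Polynomial.eval_add, Polynomial.eval_mul, Polynomial.eval_X,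
        Polynomial.eval_ofNat]
      change sz (l'.foldl W_MP_c8d28d_lc.pStep ((0, ([], [])) : PSt)) ≤ _
      omega
  exact h.snd.snd.reverse

theorem PF.nStep : PF (fun x : (ℕ × List ℕ) × Bool => nStep x.1 x.2) := by
  have s : PF (fun x : (ℕ × List ℕ) × Bool => x.1) := PF.fst'
  have t : PF (fun x : (ℕ × List ℕ) × Bool => x.2) := PF.snd'
  unfold W_MP_c8d28d_lc.nStep
  exact PF.ite t (s.fst.succ.pair s.snd) ((PF.const 0).pair (s.fst.cons s.snd))

theorem sz_foldl_nStep (w : List Bool) (s : ℕ × List ℕ) :
    sz (w.foldl nStep s) ≤ sz s + 10 * w.length := by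
  induction w generalizing s with
  | nil => simp
  | cons t w ih =>
    rw [List.foldl_cons, List.length_cons]
    have h1 := ih (nStep s t)
    have h2 : sz (nStep s t) ≤ sz s + 10 := by
      obtain ⟨k, r⟩ := s
      cases t <;> simp [nStep] <;> omega
    omega

theorem PF.parseNats : PF parseNats := by
  have h : PF (fun w : List Bool => w.foldl W_MP_c8d28d_lc.nStep ((0, []) : ℕ × List ℕ)) := by
    refine PF.foldl' (γ := List Bool) (f := fun _ s t => W_MP_c8d28d_lc.nStep s t) ?_
      (PF.const _) PF.id' (10 * Polynomial.X + 10) ?_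
    · exact PF.nStep.comp (PF.id'.fst.snd.pair PF.id'.snd)
    · intro w l' hl'
      have h1 := sz_foldl_nStep l' ((0, []) : ℕ × List ℕ)
      have h2 := (length_le_sz l').trans (sz_prefix hl')
      have h3 : sz ((0, []) : ℕ × List ℕ) = 3 := by simp
      simp only [Polynomial.eval_add, Polynomial.eval_mul, Polynomial.eval_X,
        Polynomial.eval_ofNat]
      change sz (l'.foldl W_MP_c8d28d_lc.nStep ((0, []) : ℕ × List ℕ)) ≤ _
      omega
  exact h.snd.reverse

theorem foldl_idxOf (v : ℕ) (l : List ℕ) (k : ℕ) (b : Bool) :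
    (l.foldl (fun (s : ℕ × Bool) a => if s.2 then s else if a == v then (s.1, true)
      else (s.1 + 1, false)) (k, b)) = (if b then (k, b) else (k + l.idxOf v, decide (v ∈ l))) := by
  induction l generalizing k b with
  | nil => cases b <;> simp
  | cons a l ih =>
    rw [List.foldl_cons]
    cases b with
    | true =>
      simp only [if_true]
      rw [ih]
      simp
    | false =>
      by_cases h : a = v
      · subst h
        simp only [Bool.false_eq_true, if_false, beq_self_eq_true, if_true]
        rw [ih]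
        simp
      · have h2 : (a == v) = false := by simpa using h
        have h3 : v ≠ a := fun e => h e.symm
        simp only [h2, List.idxOf_cons]
        rw [ih]
        simp [h3]
        omega

theorem PF.idxOf {l : γ → List ℕ} {v : γ → ℕ} (hl : PF l) (hv : PF v) :
    PF (fun c => (l c).idxOf (v c)) := by
  obtain ⟨P, hP⟩ := hl.bound
  have h : PF (fun c => (l c).foldl (fun (s : ℕ × Bool) a => if s.2 then s else
      if a == v c then (s.1, true) else (s.1 + 1, false)) ((0, false) : ℕ × Bool)) := by
    refine PF.foldl' (f := fun c (s : ℕ × Bool) a => if s.2 then s else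
      if a == v c then (s.1, true) else (s.1 + 1, false)) ?_ (PF.const _) hl (2 * P + 10) ?_
    · have c : PF (fun x : (γ × (ℕ × Bool)) × ℕ => x.1.1) := PF.id'.fst.fst
      have s : PF (fun x : (γ × (ℕ × Bool)) × ℕ => x.1.2) := PF.id'.fst.snd
      have a : PF (fun x : (γ × (ℕ × Bool)) × ℕ => x.2) := PF.snd'
      have e : PF (fun x : (γ × (ℕ × Bool)) × ℕ => x.2 == v x.1.1) :=
        (PF.natEq a (hv.comp c)).cast (fun c => by congr 1)
      exact PF.ite s.snd s (PF.ite e (s.fst.pair (PF.const true))
        (s.fst.succ.pair (PF.const false)))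
    · intro c l' hl'
      rw [foldl_idxOf]
      simp only [Bool.false_eq_true, if_false, Nat.zero_add]
      rw [sz_pair, sz_nat]
      have h1 : l'.idxOf (v c) ≤ l'.length := List.idxOf_le_length
      have h2 := (length_le_sz l').trans (sz_prefix hl')
      have h3 := hP c
      have h4 := sz_bool (decide (v c ∈ l'))
      simp only [Polynomial.eval_add, Polynomial.eval_mul, Polynomial.eval_ofNat]
      omega
  refine h.fst.cast (fun c => ?_)
  rw [foldl_idxOf]
  simp

theorem PF.check : PF (fun x : CNF × List ℕ => check x.1 x.2) := by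
  have h1 : PF (fun y : (((CNF × List ℕ) × List (ℕ × Bool)) × (ℕ × Bool)) =>
      (decide (y.1.1.2.idxOf (2 * y.2.1 + 1) < y.1.1.2.idxOf (2 * y.2.1))) == y.2.2) := by
    have o : PF (fun y : (((CNF × List ℕ) × List (ℕ × Bool)) × (ℕ × Bool)) => y.1.1.2) :=
      PF.id'.fst.fst.snd
    have i : PF (fun y : (((CNF × List ℕ) × List (ℕ × Bool)) × (ℕ × Bool)) => y.2.1) :=
      PF.id'.snd.fst
    have b : PF (fun y : (((CNF × List ℕ) × List (ℕ × Bool)) × (ℕ × Bool)) => y.2.2) :=
      PF.id'.snd.snd
    have i2 := PF.mul (PF.const (α := (((CNF × List ℕ) × List (ℕ × Bool)) × (ℕ × Bool))) 2) i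
    exact PF.boolEq (PF.lt (PF.idxOf o i2.succ) (PF.idxOf o i2)) b
  have h2 : PF (fun x : (CNF × List ℕ) × List (ℕ × Bool) => x.2.any (fun l =>
      (decide (x.1.2.idxOf (2 * l.1 + 1) < x.1.2.idxOf (2 * l.1))) == l.2)) :=
    PF.any (g := fun (x : (CNF × List ℕ) × List (ℕ × Bool)) (l : ℕ × Bool) =>
      (decide (x.1.2.idxOf (2 * l.1 + 1) < x.1.2.idxOf (2 * l.1))) == l.2) h1 PF.snd'
  exact PF.all (g := fun (x : CNF × List ℕ) (d : List (ℕ × Bool)) => d.any (fun l =>
      (decide (x.2.idxOf (2 * l.1 + 1) < x.2.idxOf (2 * l.1))) == l.2)) h2 PF.fst'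

end

end Pool.Agent.W_MP_c8d28d_lc
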