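import Pool.Agent.PolyTime.Clock
import Pool.Agent.W_MP_c8d28d_lc.Codes
import Pool.Agent.W_MP_c8d28d_lc.Parse

set_option autoImplicit false

namespace Pool.Agent.W_MP_c8d28d_lc

open Pool.Agent.PolyTime Turing

instance : Fintype Tok := ⟨{.one, .pos, .neg, .stop}, fun t => by cases t <;> simp⟩
instance : Inhabited Tok := ⟨.one⟩

/-- reading a formula -/
theorem poly_read : Poly encCNF en (fun φ : CNF => φ) := by
  have h1 : Poly (id : List Tok → List Tok) D.enc (fun w => D.ofList (w.map (fun t =>
    toD (tokB t)))) := Poly.toTree (fun t => toD (tokB t))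
  have h2 : Poly encCNF en (fun φ : CNF => (encCNF φ).map tokB) := by
    refine h1.restrict encCNF (fun _ => rfl) (fun φ => ?_)
    change _ = (D.ofList (((encCNF φ).map tokB).map toD)).enc
    rw [List.map_map]
    rfl
  have h3 : Poly encCNF en (fun φ : CNF => parseCNF ((encCNF φ).map tokB)) :=
    Poly.comp h2 PF.parseCNF
  exact h3.restrict id (fun _ => rfl) (fun φ => by rw [id_eq, parseCNF_enc])

/-- writing down the graph -/
theorem poly_graph : Poly (en (α := CNF)) encGraph graph := by
  have h1 : Poly (en (α := List Bool)) (id : List Bool → List Bool) id :=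
    Poly.ofTree.restrict id (fun _ => rfl) (fun _ => rfl)
  have h2 : Poly (en (α := CNF)) (id : List Bool → List Bool) (fun φ => id (matrix φ)) :=
    Poly.comp PF.matrix h1
  exact h2.restrict id (fun _ => rfl) (fun φ => by simp only [id_eq, encGraph_graph])

open Classical in
/-- The reduction. -/
theorem reduction (f : FinGraph → List Bool) (hf : Poly encGraph id f)
    (h : ∀ φ, Satisfiable φ → ∃ l, IsTypeB (graph φ).2 l ∧
      f (graph φ) = encOrder (l.map Fin.val)) :
    Poly encCNF Computability.encodeBool (fun φ => decide (Satisfiable φ)) := by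
  have h1 : Poly (en (α := CNF)) (id : List Bool → List Bool) (fun φ => f (graph φ)) :=
    Poly.comp poly_graph hf
  have h2 : PF (fun φ : CNF => f (graph φ)) := by
    have h3 : Poly (id : List Bool → List Bool) en (fun w : List Bool => w) :=
      (Poly.toTree D.ofBool).restrict id (fun _ => rfl) (fun _ => rfl)
    exact Poly.comp (g := fun w : List Bool => w) h1 h3
  have h4 : PB (fun φ : CNF => check φ (parseNats (f (graph φ)))) :=
    (PF.check.comp (PF.id'.pair (PF.parseNats.comp h2))).toPB
  have h5 : Poly encCNF Computability.encodeBool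
      (fun φ : CNF => check φ (parseNats (f (graph φ)))) := Poly.comp poly_read h4
  refine h5.restrict id (fun _ => rfl) (fun φ => ?_)
  congr 1
  simp only [id_eq]
  by_cases hs : Satisfiable φ
  · obtain ⟨l, hl, e⟩ := h φ hs
    have h6 : check φ (l.map Fin.val) = true := check_of (sat_of_typeB φ l hl)
    rw [e, parseNats_enc]
    exact h6.trans (by simp [hs])
  · have hn : decide (Satisfiable φ) = false := by simp [hs]
    rw [hn]
    by_contra hc
    exact hs (check_sat (by simpa using hc))

/-- The reduction, for machines that only work on the graphs with an order. -/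
theorem reduction_promise {T : ∀ {n : ℕ}, SimpleGraph (Fin n) → List (Fin n) → Prop}
    (hA : ∀ {n : ℕ} (G : SimpleGraph (Fin n)) l, IsTypeA G l → T G l)
    (hB : ∀ {n : ℕ} (G : SimpleGraph (Fin n)) l, T G l → IsTypeB G l)
    (h : PolyTimeFinder T) : SATinP := by
  obtain ⟨f, hf, hf2⟩ := h
  obtain ⟨g, hg, hg2⟩ := Poly.clock (ea := encGraph) (P := fun G => ∃ l, T G.2 l) (f := f) hf
  refine reduction g hg (fun φ hφ => ?_)
  obtain ⟨l0, hl0⟩ := exists_typeA φ hφ
  have hP : ∃ l, T (graph φ).2 l := ⟨l0, hA _ _ hl0⟩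
  obtain ⟨l, hl, e⟩ := hf2 ⟨graph φ, hP⟩
  exact ⟨l, hB _ _ hl, by rw [hg2 (graph φ) hP, e]⟩

end Pool.Agent.W_MP_c8d28d_lc
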